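import Mathlib

/-!
# Lorentz metrics on open subsets of the plane: null vectors
-/

set_option autoImplicit false

namespace Pool.Agent.KS6_93.Lin

open Set Filter Topology
open scoped ContDiff

/-- the plane -/
abbrev P : Type := ℝ × ℝ

/-- bilinear forms -/
abbrev Bil : Type := P →L[ℝ] P →L[ℝ] ℝ

/-- the area form -/
def om (v w : P) : ℝ := v.1 * w.2 - v.2 * w.1

def e1 : P := (1, 0)
def e2 : P := (0, 1)

lemma dec (v : P) : v = v.1 • e1 + v.2 • e2 := by
  ext <;> simp [e1, e2]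

lemma lin_app {F : Type*} [NormedAddCommGroup F] [NormedSpace ℝ F] (L : P →L[ℝ] F) (v : P) :
    L v = v.1 • L e1 + v.2 • L e2 := by
  conv_lhs => rw [dec v]
  rw [map_add, map_smul, map_smul]

lemma bil_app (G : Bil) (v w : P) : G v w = v.1 * w.1 * G e1 e1 + v.1 * w.2 * G e1 e2 +
    v.2 * w.1 * G e2 e1 + v.2 * w.2 * G e2 e2 := by
  rw [lin_app G v, add_apply, smul_apply,
    smul_apply, lin_app (G e1) w, lin_app (G e2) w]
  simp only [smul_eq_mul]
  ring

/-- minus the determinant -/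
noncomputable def dg (G : Bil) : ℝ := G e1 e2 ^ 2 - G e1 e1 * G e2 e2

/-- the density -/
noncomputable def rd (G : Bil) : ℝ := √(dg G)

/-- `v` belongs to the null line with the number `ε` -/
def Typ (ε : ℝ) (G : Bil) (v : P) : Prop := ∀ w, G v w = ε * rd G * om v w

/-- symmetric, Lorentzian -/
structure Lor (G : Bil) : Prop where
  symm : ∀ v w, G v w = G w v
  pos : 0 < dg G

variable {G : Bil} {ε : ℝ} {v w : P}

lemma Lor.rd_pos (h : Lor G) : 0 < rd G := Real.sqrt_pos.2 h.pos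

lemma Lor.rd_sq (h : Lor G) : rd G ^ 2 = G e1 e2 ^ 2 - G e1 e1 * G e2 e2 :=
  Real.sq_sqrt h.pos.le

lemma om_e1 (v : P) : om v e1 = -v.2 := by simp [om, e1]
lemma om_e2 (v : P) : om v e2 = v.1 := by simp [om, e2]

lemma om_self (v : P) : om v v = 0 := by unfold om; ring

lemma om_swap (v w : P) : om v w = -om w v := by unfold om; ring

lemma om_smul (v w : P) (r : ℝ) : om (r • v) w = r * om v w := by
  simp [om]
  ring

lemma typ_iff (h : Lor G) : Typ ε G v ↔
    v.1 * G e1 e1 + v.2 * G e1 e2 = -(ε * rd G * v.2) ∧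
    v.1 * G e1 e2 + v.2 * G e2 e2 = ε * rd G * v.1 := by
  constructor
  · intro H
    have a1 := H e1
    have a2 := H e2
    rw [om_e1, bil_app, h.symm e2 e1] at a1
    rw [om_e2, bil_app, h.symm e2 e1] at a2
    simp only [e1, e2, mul_one, mul_zero, add_zero, zero_add] at a1 a2 ⊢
    exact ⟨by linarith, by linarith⟩
  · rintro ⟨a1, a2⟩ w
    rw [bil_app, h.symm e2 e1]
    unfold om
    linear_combination w.1 * a1 + w.2 * a2

lemma Typ.null (h : Typ ε G v) : G v v = 0 := by rw [h v, om_self, mul_zero]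

lemma null_typ (h : Lor G) (hn : G v v = 0) : Typ 1 G v ∨ Typ (-1) G v := by
  rw [typ_iff h, typ_iff h]
  have hd := h.rd_sq
  have hp := h.rd_pos
  rw [bil_app, h.symm e2 e1] at hn
  set a := G e1 e1
  set b := G e1 e2
  set c := G e2 e2
  set D := rd G
  obtain ⟨p, q⟩ := v
  simp only at hn ⊢
  set X := p * a + q * b with hX
  set Y := p * b + q * c with hY
  have hYY : (Y - D * p) * (Y + D * p) = 0 := by
    rw [hY]; linear_combination c * hn - p ^ 2 * hd
  have hXX : (X - D * q) * (X + D * q) = 0 := by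
    rw [hX]; linear_combination a * hn - q ^ 2 * hd
  have hXY : X * Y + D ^ 2 * (p * q) = 0 := by
    rw [hX, hY]; linear_combination b * hn + p * q * hd
  rcases eq_or_ne p 0 with hp0 | hp0
  · have hY0 : Y = 0 := by
      rw [hp0] at hYY
      nlinarith [hYY]
    rcases mul_eq_zero.1 hXX with h1 | h1
    · right
      refine ⟨by linarith, ?_⟩
      rw [hY0, hp0]; ring
    · left
      refine ⟨by linarith, ?_⟩
      rw [hY0, hp0]; ring
  · rcases mul_eq_zero.1 hYY with h1 | h1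
    · left
      have e : Y = D * p := by linarith
      rw [e] at hXY
      have : p * D * (X + D * q) = 0 := by linear_combination hXY
      rcases mul_eq_zero.1 this with h2 | h2
      · exact absurd h2 (mul_ne_zero hp0 hp.ne')
      · exact ⟨by linarith, by linarith⟩
    · right
      have e : Y = -(D * p) := by linarith
      rw [e] at hXY
      have : p * D * (X - D * q) = 0 := by linear_combination -hXY
      rcases mul_eq_zero.1 this with h2 | h2
      · exact absurd h2 (mul_ne_zero hp0 hp.ne')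
      · exact ⟨by linarith, by linarith⟩

lemma typ_prop (h : Lor G) (hε : ε ≠ 0) (hv : Typ ε G v) (hw : Typ ε G w) : om v w = 0 := by
  have a1 := hv w
  have a2 := hw v
  rw [h.symm w v, om_swap w v] at a2
  have : ε * rd G * om v w = 0 := by linarith
  rcases mul_eq_zero.1 this with h2 | h2
  · exact absurd h2 (mul_ne_zero hε h.rd_pos.ne')
  · exact h2

lemma om_zero (hv : v ≠ 0) (h : om v w = 0) : ∃ r : ℝ, w = r • v := by
  unfold om at h
  rcases eq_or_ne v.1 0 with h1 | h1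
  · have h2 : v.2 ≠ 0 := fun h2 => hv (Prod.ext h1 h2)
    refine ⟨w.2 / v.2, ?_⟩
    ext
    · simp only [Prod.smul_fst, smul_eq_mul, h1, mul_zero]
      rw [h1] at h
      have : v.2 * w.1 = 0 := by linarith
      exact (mul_eq_zero.1 this).resolve_left h2
    · simp only [Prod.smul_snd, smul_eq_mul]
      field_simp
  · refine ⟨w.1 / v.1, ?_⟩
    ext
    · simp only [Prod.smul_fst, smul_eq_mul]
      field_simp
    · simp only [Prod.smul_snd, smul_eq_mul]
      field_simp
      linarith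

lemma typ_line (h : Lor G) (hε : ε ≠ 0) (hv : Typ ε G v) (hw : Typ ε G w) (h0 : v ≠ 0) :
    ∃ r : ℝ, w = r • v := om_zero h0 (typ_prop h hε hv hw)

/-- a nonzero vector is of one type only -/
lemma typ_excl (h : Lor G) (hv : Typ 1 G v) (hw : Typ (-1) G v) : v = 0 := by
  have h1 := (typ_iff h).1 hv
  have h2 := (typ_iff h).1 hw
  have hp := h.rd_pos
  have a1 : rd G * v.2 = 0 := by linarith [h1.1, h2.1]
  have a2 : rd G * v.1 = 0 := by linarith [h1.2, h2.2]
  exact Prod.ext ((mul_eq_zero.1 a2).resolve_left hp.ne') ((mul_eq_zero.1 a1).resolve_left hp.ne')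

lemma Typ.smul (h : Typ ε G v) (r : ℝ) : Typ ε G (r • v) := by
  intro w
  rw [map_smul, smul_apply, h w, om_smul, smul_eq_mul]
  ring

/-- the two sections of the null line -/
noncomputable def s1 (ε : ℝ) (G : Bil) : P := (-(G e1 e2 + ε * rd G), G e1 e1)
noncomputable def s2 (ε : ℝ) (G : Bil) : P := (G e2 e2, -(G e1 e2 - ε * rd G))

lemma typ_s1 (h : Lor G) (hε : ε ^ 2 = 1) : Typ ε G (s1 ε G) := by
  rw [typ_iff h]
  have hd := h.rd_sq
  unfold s1
  constructor
  · ring
  · simp only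
    linear_combination rd G ^ 2 * hε + hd

lemma typ_s2 (h : Lor G) (hε : ε ^ 2 = 1) : Typ ε G (s2 ε G) := by
  rw [typ_iff h]
  have hd := h.rd_sq
  unfold s2
  constructor
  · simp only
    linear_combination rd G ^ 2 * hε + hd
  · ring

lemma s_ne (h : Lor G) (hε : ε ^ 2 = 1) : s1 ε G ≠ 0 ∨ s2 ε G ≠ 0 := by
  by_contra hc
  push Not at hc
  obtain ⟨h1, h2⟩ := hc
  have a1 : -(G e1 e2 + ε * rd G) = 0 := congrArg Prod.fst h1
  have a2 : -(G e1 e2 - ε * rd G) = 0 := congrArg Prod.snd h2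
  have a3 : ε * rd G = 0 := by linarith
  have h3 := h.rd_pos
  rcases mul_eq_zero.1 a3 with h4 | h4
  · rw [h4] at hε; norm_num at hε
  · exact h3.ne' h4

/-! ### smooth fields -/

section field
variable {U : Set P} {g : P → Bil}

lemma contDiffOn_app (hg : ContDiffOn ℝ ∞ g U) (v w : P) :
    ContDiffOn ℝ ∞ (fun y => g y v w) U :=
  (hg.clm_apply contDiffOn_const).clm_apply contDiffOn_const

lemma contDiffOn_dg (hg : ContDiffOn ℝ ∞ g U) : ContDiffOn ℝ ∞ (fun y => dg (g y)) U :=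
  ((contDiffOn_app hg e1 e2).pow 2).sub ((contDiffOn_app hg e1 e1).mul (contDiffOn_app hg e2 e2))

lemma contDiffOn_rd (hg : ContDiffOn ℝ ∞ g U) (hL : ∀ y ∈ U, Lor (g y)) :
    ContDiffOn ℝ ∞ (fun y => rd (g y)) U :=
  (contDiffOn_dg hg).sqrt fun y hy => (hL y hy).pos.ne'

/-- local section of a null line -/
lemma exists_sec (hg : ContDiffOn ℝ ∞ g U) (hL : ∀ y ∈ U, Lor (g y)) {y0 : P} (hy0 : y0 ∈ U)
    (hε : ε ^ 2 = 1) {v0 : P} (hv0 : Typ ε (g y0) v0) :
    ∃ ν : P → P, ContDiffOn ℝ ∞ ν U ∧ ν y0 = v0 ∧ ∀ y ∈ U, Typ ε (g y) (ν y) := by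
  have hε0 : ε ≠ 0 := by rintro rfl; norm_num at hε
  have c1 : ContDiffOn ℝ ∞ (fun y => s1 ε (g y)) U := by
    unfold s1
    exact (((contDiffOn_app hg e1 e2).add (contDiffOn_const.mul (contDiffOn_rd hg hL))).neg).prodMk
      (contDiffOn_app hg e1 e1)
  have c2 : ContDiffOn ℝ ∞ (fun y => s2 ε (g y)) U := by
    unfold s2
    exact (contDiffOn_app hg e2 e2).prodMk
      (((contDiffOn_app hg e1 e2).sub (contDiffOn_const.mul (contDiffOn_rd hg hL))).neg)
  rcases s_ne (hL y0 hy0) hε with h | h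
  · obtain ⟨r, hr⟩ := typ_line (hL y0 hy0) hε0 (typ_s1 (hL y0 hy0) hε) hv0 h
    exact ⟨fun y => r • s1 ε (g y), c1.const_smul r, hr.symm,
      fun y hy => (typ_s1 (hL y hy) hε).smul r⟩
  · obtain ⟨r, hr⟩ := typ_line (hL y0 hy0) hε0 (typ_s2 (hL y0 hy0) hε) hv0 h
    exact ⟨fun y => r • s2 ε (g y), c2.const_smul r, hr.symm,
      fun y hy => (typ_s2 (hL y hy) hε).smul r⟩

end field

end Pool.Agent.KS6_93.Lin
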