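import Pool.Agent.KS6_93.Lin.P1

/-!
# The normalised null field in the plane
-/

set_option autoImplicit false
set_option maxSynthPendingDepth 3

namespace Pool.Agent.KS6_93.Lin

open Set Filter Topology
open scoped ContDiff

/-- a Lorentz metric `g`, a 1-form `η` and the acceleration `A` of the geodesics -/
structure Dat (U : Set P) (g : P → Bil) (η : P → P →L[ℝ] ℝ) (A : P → P → P) : Prop where
  op : IsOpen U
  gs : ContDiffOn ℝ ∞ g U
  lor : ∀ y ∈ U, Lor (g y)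
  ηs : ContDiffOn ℝ ∞ η U
  acc : ∀ y ∈ U, ∀ v w, g y (A y v) w = 1 / 2 * fderiv ℝ g y w v v - fderiv ℝ g y v v w

/-- the slope -/
noncomputable def Q (η : P → P →L[ℝ] ℝ) (A : P → P → P) (y v : P) : ℝ :=
  fderiv ℝ η y v v + η y (A y v)

/-- normalised vectors -/
def Un (ε : ℝ) (g : P → Bil) (η : P → P →L[ℝ] ℝ) (A : P → P → P) (y v : P) : Prop :=
  Typ ε (g y) v ∧ Q η A y v = 1 ∧ 0 < η y v

variable {U : Set P} {g : P → Bil} {η : P → P →L[ℝ] ℝ} {A : P → P → P} {ε : ℝ}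

/-- the vector dual to `η` -/
noncomputable def sh (G : Bil) (L : P →L[ℝ] ℝ) : P :=
  ((G e1 e2 * L e2 - G e2 e2 * L e1) / dg G, (G e1 e2 * L e1 - G e1 e1 * L e2) / dg G)

lemma sh_spec {G : Bil} (h : Lor G) (L : P →L[ℝ] ℝ) (w : P) : G w (sh G L) = L w := by
  have hp := h.pos
  have hd : dg G = G e1 e2 ^ 2 - G e1 e1 * G e2 e2 := rfl
  rw [bil_app, h.symm e2 e1, lin_app L w]
  unfold sh
  simp only [smul_eq_mul]
  field_simp
  rw [hd]
  ring

lemma Q_eq (h : Dat U g η A) {y : P} (hy : y ∈ U) (v : P) :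
    Q η A y v = fderiv ℝ η y v v + 1 / 2 * fderiv ℝ g y (sh (g y) (η y)) v v -
      fderiv ℝ g y v v (sh (g y) (η y)) := by
  unfold Q
  rw [← sh_spec (h.lor y hy) (η y) (A y v), h.acc y hy]
  ring

lemma Q_smul (h : Dat U g η A) {y : P} (hy : y ∈ U) (r : ℝ) (v : P) :
    Q η A y (r • v) = r ^ 2 * Q η A y v := by
  rw [Q_eq h hy, Q_eq h hy]
  simp only [map_smul, smul_apply, smul_eq_mul]
  ring

lemma Un.ne {y v : P} (h : Un ε g η A y v) : v ≠ 0 := by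
  rintro rfl
  have := h.2.2
  simp at this

lemma Un_unique (h : Dat U g η A) (hε : ε ≠ 0) {y v w : P} (hy : y ∈ U)
    (hv : Un ε g η A y v) (hw : Un ε g η A y w) : w = v := by
  obtain ⟨r, rfl⟩ := typ_line (h.lor y hy) hε hv.1 hw.1 hv.ne
  have a1 := hw.2.1
  rw [Q_smul h hy, hv.2.1, mul_one] at a1
  have a2 := hw.2.2
  rw [map_smul, smul_eq_mul] at a2
  have a3 : 0 < r := by
    by_contra hc
    have := mul_nonpos_of_nonpos_of_nonneg (not_lt.1 hc) hv.2.2.le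
    linarith
  have a4 : r = 1 := by nlinarith
  rw [a4, one_smul]

lemma fds (h : Dat U g η A) : ContDiffOn ℝ ∞ (fderiv ℝ g) U :=
  h.gs.fderiv_of_isOpen h.op (by simp)

lemma fdη (h : Dat U g η A) : ContDiffOn ℝ ∞ (fderiv ℝ η) U :=
  h.ηs.fderiv_of_isOpen h.op (by simp)

lemma sh_smooth (h : Dat U g η A) : ContDiffOn ℝ ∞ (fun y => sh (g y) (η y)) U := by
  have hη : ∀ w, ContDiffOn ℝ ∞ (fun y => η y w) U := fun w => h.ηs.clm_apply contDiffOn_const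
  have hd : ∀ y ∈ U, dg (g y) ≠ 0 := fun y hy => (h.lor y hy).pos.ne'
  unfold sh
  exact ((((contDiffOn_app h.gs e1 e2).mul (hη e2)).sub
    ((contDiffOn_app h.gs e2 e2).mul (hη e1))).div (contDiffOn_dg h.gs) hd).prodMk
    ((((contDiffOn_app h.gs e1 e2).mul (hη e1)).sub
    ((contDiffOn_app h.gs e1 e1).mul (hη e2))).div (contDiffOn_dg h.gs) hd)

lemma Q_smooth (h : Dat U g η A) {ν : P → P} (hν : ContDiffOn ℝ ∞ ν U) :
    ContDiffOn ℝ ∞ (fun y => Q η A y (ν y)) U := by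
  have e : ∀ y ∈ U, Q η A y (ν y) = fderiv ℝ η y (ν y) (ν y) +
      1 / 2 * fderiv ℝ g y (sh (g y) (η y)) (ν y) (ν y) -
      fderiv ℝ g y (ν y) (ν y) (sh (g y) (η y)) := fun y hy => Q_eq h hy (ν y)
  refine ContDiffOn.congr ?_ e
  exact ((((fdη h).clm_apply hν).clm_apply hν).add (contDiffOn_const.mul
    ((((fds h).clm_apply (sh_smooth h)).clm_apply hν).clm_apply hν))).sub
    ((((fds h).clm_apply hν).clm_apply hν).clm_apply (sh_smooth h))

/-- the normalised null field near a point -/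
lemma exists_V (h : Dat U g η A) (hε : ε ^ 2 = 1) {y0 v0 : P} (hy0 : y0 ∈ U)
    (hv0 : Un ε g η A y0 v0) : ∃ (r : ℝ) (V : P → P), 0 < r ∧ Metric.ball y0 r ⊆ U ∧
      ContDiffOn ℝ ∞ V (Metric.ball y0 r) ∧ V y0 = v0 ∧
      ∀ y ∈ Metric.ball y0 r, Un ε g η A y (V y) := by
  have hε0 : ε ≠ 0 := by rintro rfl; norm_num at hε
  obtain ⟨ν, hν, hν0, hνt⟩ := exists_sec h.gs h.lor hy0 hε hv0.1
  have hq := Q_smooth h hν
  have hη : ContDiffOn ℝ ∞ (fun y => η y (ν y)) U := h.ηs.clm_apply hν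
  have hN : {y | 0 < Q η A y (ν y)} ∩ {y | 0 < η y (ν y)} ∩ U ∈ 𝓝 y0 := by
    have hU := h.op.mem_nhds hy0
    refine inter_mem (inter_mem ?_ ?_) hU
    · refine (hq.continuousOn.continuousAt hU).eventually (Ioi_mem_nhds ?_)
      change 0 < Q η A y0 (ν y0)
      rw [hν0, hv0.2.1]
      norm_num
    · refine (hη.continuousOn.continuousAt hU).eventually (Ioi_mem_nhds ?_)
      change 0 < η y0 (ν y0)
      rw [hν0]
      exact hv0.2.2
  obtain ⟨r, hr, hB⟩ := Metric.mem_nhds_iff.1 hN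
  have hBU : Metric.ball y0 r ⊆ U := fun y hy => (hB hy).2
  refine ⟨r, fun y => (√(Q η A y (ν y)))⁻¹ • ν y, hr, hBU, ?_, ?_, ?_⟩
  · have c1 : ContDiffOn ℝ ∞ (fun y => √(Q η A y (ν y))) (Metric.ball y0 r) :=
      (hq.mono hBU).sqrt fun y hy => (hB hy).1.1.ne'
    exact (c1.inv fun y hy => (Real.sqrt_pos.2 (hB hy).1.1).ne').smul (hν.mono hBU)
  · simp only [hν0, hv0.2.1, Real.sqrt_one, inv_one, one_smul]
  · intro y hy
    have hqp : 0 < Q η A y (ν y) := (hB hy).1.1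
    refine ⟨(hνt y (hBU hy)).smul _, ?_, ?_⟩
    · rw [Q_smul h (hBU hy), inv_pow, Real.sq_sqrt hqp.le, inv_mul_cancel₀ hqp.ne']
    · rw [map_smul, smul_eq_mul]
      exact mul_pos (inv_pos.2 (Real.sqrt_pos.2 hqp)) (hB hy).1.2

end Pool.Agent.KS6_93.Lin
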