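import Pool.Agent.KS6_93.Lin.P2

/-!
# The normalised null field is geodesic and has divergence zero
-/

set_option autoImplicit false
set_option maxSynthPendingDepth 3

namespace Pool.Agent.KS6_93.Lin

open Set Filter Topology
open scoped ContDiff

variable {U : Set P} {g : P → Bil} {η : P → P →L[ℝ] ℝ} {A : P → P → P} {ε : ℝ}

/-- there are normalised geodesics -/
def Geo (ε : ℝ) (U : Set P) (g : P → Bil) (η : P → P →L[ℝ] ℝ) (A : P → P → P) : Prop :=
  ∀ y ∈ U, ∀ v, Un ε g η A y v → ∃ c c' : ℝ → P, c 0 = y ∧ c' 0 = v ∧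
    (∀ᶠ t in 𝓝 0, HasDerivAt c (c' t) t ∧ Un ε g η A (c t) (c' t)) ∧ HasDerivAt c' (A y v) 0

lemma field_acc (h : Dat U g η A) (hε : ε ≠ 0) (hgeo : Geo ε U g η A) {B : Set P}
    (hB : IsOpen B) (hBU : B ⊆ U) {V : P → P} (hV : ContDiffOn ℝ ∞ V B)
    (hU : ∀ y ∈ B, Un ε g η A y (V y)) {y : P} (hy : y ∈ B) : fderiv ℝ V y (V y) = A y (V y) := by
  obtain ⟨c, c', h0, h0', h1, h2⟩ := hgeo y (hBU hy) (V y) (hU y hy)
  have hc0 : HasDerivAt c (c' 0) 0 := h1.self_of_nhds.1
  have hcB : ∀ᶠ t in 𝓝 (0 : ℝ), c t ∈ B := by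
    refine hc0.continuousAt.eventually_mem (hB.mem_nhds ?_)
    rw [h0]; exact hy
  have he : ∀ᶠ t in 𝓝 (0 : ℝ), c' t = V (c t) := by
    filter_upwards [h1, hcB] with t ht htB
    exact Un_unique h hε (hBU htB) (hU _ htB) ht.2
  have hd : HasFDerivAt V (fderiv ℝ V y) (c 0) := by
    rw [h0]
    exact ((hV.contDiffAt (hB.mem_nhds hy)).differentiableAt (by simp)).hasFDerivAt
  have h3 : HasDerivAt (fun t => V (c t)) (fderiv ℝ V y (c' 0)) 0 := hd.comp_hasDerivAt 0 hc0
  have h4 : HasDerivAt c' (fderiv ℝ V y (c' 0)) 0 := h3.congr_of_eventuallyEq he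
  rw [h0'] at h4
  exact h4.unique h2

/-- the derivative of the density -/
lemma rd_deriv (h : Dat U g η A) {y : P} (hy : y ∈ U) (w : P) :
    2 * rd (g y) * fderiv ℝ (fun y => rd (g y)) y w =
      2 * g y e1 e2 * fderiv ℝ g y w e1 e2 - fderiv ℝ g y w e1 e1 * g y e2 e2 -
        g y e1 e1 * fderiv ℝ g y w e2 e2 := by
  have hg : HasFDerivAt g (fderiv ℝ g y) y :=
    ((h.gs.contDiffAt (h.op.mem_nhds hy)).differentiableAt (by simp)).hasFDerivAt
  have hr : HasFDerivAt (fun y => rd (g y)) (fderiv ℝ (fun y => rd (g y)) y) y :=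
    (((contDiffOn_rd h.gs h.lor).contDiffAt (h.op.mem_nhds hy)).differentiableAt
      (by simp)).hasFDerivAt
  have hij : ∀ v w : P, HasFDerivAt (fun y => g y v w)
      (((fderiv ℝ g y).flip v).flip w) y := by
    intro v w
    have := (hg.clm_apply (hasFDerivAt_const v y)).clm_apply (hasFDerivAt_const w y)
    refine this.congr_fderiv (ContinuousLinearMap.ext fun u => ?_)
    simp
  have h1 := ((hij e1 e2).pow 2).sub ((hij e1 e1).mul (hij e2 e2))
  have h2 := (hr.pow 2).congr_of_eventuallyEq (f₁ := fun y => dg (g y)) (by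
      filter_upwards [h.op.mem_nhds hy] with z hz
      exact ((h.lor z hz).rd_sq).symm)
  have h3 := congrArg (fun L => L w) (h1.unique h2)
  simp at h3
  linarith [h3]

lemma null_deriv (h : Dat U g η A) {B : Set P} (hB : IsOpen B) (hBU : B ⊆ U) {V : P → P}
    (hV : ContDiffOn ℝ ∞ V B) (hU : ∀ y ∈ B, Un ε g η A y (V y)) {y : P} (hy : y ∈ B) (w : P) :
    fderiv ℝ g y w (V y) (V y) + 2 * g y (fderiv ℝ V y w) (V y) = 0 := by
  have hg : HasFDerivAt g (fderiv ℝ g y) y :=
    ((h.gs.contDiffAt (h.op.mem_nhds (hBU hy))).differentiableAt (by simp)).hasFDerivAt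
  have hVd : HasFDerivAt V (fderiv ℝ V y) y :=
    ((hV.contDiffAt (hB.mem_nhds hy)).differentiableAt (by simp)).hasFDerivAt
  have h1 := (hg.clm_apply hVd).clm_apply hVd
  have h2 : HasFDerivAt (fun y => g y (V y) (V y)) (0 : P →L[ℝ] ℝ) y := by
    refine (hasFDerivAt_const (0 : ℝ) y).congr_of_eventuallyEq ?_
    filter_upwards [hB.mem_nhds hy] with z hz
    exact (hU z hz).1.null
  have h3 := congrArg (fun L => L w) (h1.unique h2)
  simp at h3
  have h4 := (h.lor y (hBU hy)).symm (V y) (fderiv ℝ V y w)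
  linarith [h3, h4]

/-- divergence zero -/
lemma div_zero (h : Dat U g η A) (hε : ε ≠ 0) (hgeo : Geo ε U g η A) {B : Set P}
    (hB : IsOpen B) (hBU : B ⊆ U) {V : P → P} (hV : ContDiffOn ℝ ∞ V B)
    (hU : ∀ y ∈ B, Un ε g η A y (V y)) {y : P} (hy : y ∈ B) :
    fderiv ℝ (fun y => rd (g y)) y (V y) +
      rd (g y) * ((fderiv ℝ V y e1).1 + (fderiv ℝ V y e2).2) = 0 := by
  have hyU := hBU hy
  have hL := h.lor y hyU
  have h1 := field_acc h hε hgeo hB hBU hV hU hy
  have hS : ∀ w, fderiv ℝ g y (V y) (V y) w + g y (fderiv ℝ V y (V y)) w +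
      g y (V y) (fderiv ℝ V y w) = 0 := by
    intro w
    have a1 := h.acc y hyU (V y) w
    have a2 := null_deriv h hB hBU hV hU hy w
    rw [h1, a1, hL.symm (V y)]
    linarith
  have hne := (hU y hy).ne
  have hn := (hU y hy).1.null
  have hr := rd_deriv h hyU (V y)
  have s1 := hS e1
  have s2 := hS e2
  have hp := hL.rd_pos
  have hd := hL.rd_sq
  have hsy : ∀ u v w, fderiv ℝ g y u v w = fderiv ℝ g y u w v := by
    intro u v w
    have hg : HasFDerivAt g (fderiv ℝ g y) y :=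
      ((h.gs.contDiffAt (h.op.mem_nhds hyU)).differentiableAt (by simp)).hasFDerivAt
    have b1 := (hg.clm_apply (hasFDerivAt_const v y)).clm_apply (hasFDerivAt_const w y)
    have b2 := (hg.clm_apply (hasFDerivAt_const w y)).clm_apply (hasFDerivAt_const v y)
    have b3 := b2.congr_of_eventuallyEq (f₁ := fun y => g y v w) (by
      filter_upwards [h.op.mem_nhds hyU] with z hz
      exact (h.lor z hz).symm v w)
    have := congrArg (fun L => L u) (b1.unique b3)
    simpa using this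
  rw [bil_app (fderiv ℝ g y (V y)), lin_app (fderiv ℝ V y) (V y)] at s1 s2
  rw [bil_app] at hn
  rw [bil_app (g y) (V y), bil_app (g y) (_ + _) _] at s1 s2
  rw [hsy (V y) e2 e1, hL.symm e2 e1] at s1 s2
  rw [hL.symm e2 e1] at hn
  simp only [Prod.fst_add, Prod.snd_add, Prod.smul_fst, Prod.smul_snd, smul_eq_mul] at s1 s2
  have x1 : (e1).1 = (1 : ℝ) := rfl
  have x2 : (e1).2 = (0 : ℝ) := rfl
  have x3 : (e2).1 = (0 : ℝ) := rfl
  have x4 : (e2).2 = (1 : ℝ) := rfl
  rw [x1, x2] at s1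
  rw [x3, x4] at s2
  generalize fderiv ℝ (fun y => rd (g y)) y (V y) = R' at hr ⊢
  generalize fderiv ℝ g y (V y) e1 e1 = a' at hr s1 s2
  generalize fderiv ℝ g y (V y) e1 e2 = b' at hr s1 s2
  generalize fderiv ℝ g y (V y) e2 e2 = c' at hr s1 s2
  generalize (fderiv ℝ V y e1) = d1 at s1 s2 ⊢
  generalize (fderiv ℝ V y e2) = d2 at s1 s2 ⊢
  generalize V y = v at *
  generalize g y e1 e1 = a at *
  generalize g y e1 e2 = b at *
  generalize g y e2 e2 = c at *
  generalize rd (g y) = R at *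
  obtain ⟨p, q⟩ := v
  obtain ⟨d11, d21⟩ := d1
  obtain ⟨d12, d22⟩ := d2
  simp only at *
  set S11 := a' + 2 * (d11 * a + d21 * b) with hS11
  set S12 := b' + (d11 * b + d21 * c) + (d12 * a + d22 * b) with hS12
  set S22 := c' + 2 * (d12 * b + d22 * c) with hS22
  have t1 : S11 * p + S12 * q = 0 := by rw [hS11, hS12]; linear_combination s1
  have t2 : S12 * p + S22 * q = 0 := by rw [hS12, hS22]; linear_combination s2
  have t3 : c * S11 + a * S22 - 2 * b * S12 = 0 := by
    rcases eq_or_ne q 0 with hq | hq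
    · have hp0 : p ≠ 0 := fun hp0 => hne (by rw [hp0, hq]; rfl)
      rw [hq] at t1 t2 hn
      have u1 : S11 = 0 := by
        have : S11 * p = 0 := by linarith
        exact (mul_eq_zero.1 this).resolve_right hp0
      have u2 : S12 = 0 := by
        have : S12 * p = 0 := by linarith
        exact (mul_eq_zero.1 this).resolve_right hp0
      have u3 : a = 0 := by
        have : p * p * a = 0 := by linarith
        exact (mul_eq_zero.1 this).resolve_left (mul_ne_zero hp0 hp0)
      rw [u1, u2, u3]; ring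
    · have : q ^ 2 * (c * S11 + a * S22 - 2 * b * S12) = 0 := by
        linear_combination S11 * hn + (-2 * b * q - a * p) * t1 + a * q * t2
      exact (mul_eq_zero.1 this).resolve_left (pow_ne_zero 2 hq)
  have t4 : 2 * R * (R' + R * (d11 + d22)) = 0 := by
    rw [hS11, hS12, hS22] at t3
    linear_combination hr - t3 + 2 * (d11 + d22) * hd
  exact (mul_eq_zero.1 t4).resolve_left (by positivity)

end Pool.Agent.KS6_93.Lin
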