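import Pool.Agent.KS6_93.Lin.P3

/-!
# Area preserving coordinates in which the normalised null field is constant
-/

set_option autoImplicit false
set_option maxSynthPendingDepth 3

namespace Pool.Agent.KS6_93.Lin

open Set Filter Topology
open scoped ContDiff

variable {U : Set P} {g : P → Bil} {η : P → P →L[ℝ] ℝ} {A : P → P → P} {ε : ℝ}

lemma det_P (L : P →L[ℝ] P) : L.det = (L e1).1 * (L e2).2 - (L e2).1 * (L e1).2 := by
  have h : L.det = LinearMap.det (L : P →ₗ[ℝ] P) := rfl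
  rw [h, ← LinearMap.det_toMatrix (Module.Basis.finTwoProd ℝ), Matrix.det_fin_two]
  simp [LinearMap.toMatrix_apply, e1, e2]

/-- coordinates -/
structure Bx (ε : ℝ) (U : Set P) (g : P → Bil) (η : P → P →L[ℝ] ℝ) (A : P → P → P)
    (Θ : OpenPartialHomeomorph P P) : Prop where
  sub : Θ.source ⊆ U
  cd : ∀ y ∈ Θ.source, ContDiffAt ℝ 1 Θ y
  det : ∀ y ∈ Θ.source, |(fderiv ℝ Θ y).det| = rd (g y)
  vec : ∀ y ∈ Θ.source, ∀ v, Un ε g η A y v → fderiv ℝ Θ y v = (0, 1) ∧ (Θ y).2 = η y v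
  ex : ∀ y ∈ Θ.source, ∃ v, Un ε g η A y v

theorem planar (h : Dat U g η A) (hε : ε ^ 2 = 1) (hgeo : Geo ε U g η A) {y0 v0 : P}
    (hy0 : y0 ∈ U) (hv0 : Un ε g η A y0 v0) :
    ∃ Θ : OpenPartialHomeomorph P P, y0 ∈ Θ.source ∧ Bx ε U g η A Θ := by
  have hε0 : ε ≠ 0 := by rintro rfl; norm_num at hε
  obtain ⟨r, V, hr, hBU, hV, hV0, hU⟩ := exists_V h hε hy0 hv0
  set B := Metric.ball y0 r with hBdef
  have hB : IsOpen B := Metric.isOpen_ball
  have hconv : Convex ℝ B := convex_ball y0 r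
  have hy0B : y0 ∈ B := Metric.mem_ball_self hr
  have crd : ContDiffOn ℝ ∞ (fun y => rd (g y)) B := (contDiffOn_rd h.gs h.lor).mono hBU
  have cf1 : ContDiffOn ℝ ∞ (fun y => rd (g y) * (V y).1) B := crd.mul hV.fst
  have cf2 : ContDiffOn ℝ ∞ (fun y => rd (g y) * (V y).2) B := crd.mul hV.snd
  set α : P → P →L[ℝ] ℝ := fun y => (rd (g y) * (V y).1) • ContinuousLinearMap.snd ℝ ℝ ℝ -
    (rd (g y) * (V y).2) • ContinuousLinearMap.fst ℝ ℝ ℝ with hα
  have cα : ContDiffOn ℝ ∞ α B :=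
    (cf1.smul contDiffOn_const).sub (cf2.smul contDiffOn_const)
  have dif : ∀ {F : Type} [NormedAddCommGroup F] [NormedSpace ℝ F] {f : P → F},
      ContDiffOn ℝ ∞ f B → ∀ y ∈ B, HasFDerivAt f (fderiv ℝ f y) y := by
    intro F _ _ f hf y hy
    exact ((hf.contDiffAt (hB.mem_nhds hy)).differentiableAt (by simp)).hasFDerivAt
  -- closed
  have hclosed : ∀ y ∈ B, ∀ v w, fderiv ℝ α y v w = fderiv ℝ α y w v := by
    intro y hy v w
    have d1 := dif cf1 y hy
    have d2 := dif cf2 y hy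
    have dV := dif hV y hy
    have dr := dif crd y hy
    have e : ∀ v w, fderiv ℝ α y v w = fderiv ℝ (fun y => rd (g y) * (V y).1) y v * w.2 -
        fderiv ℝ (fun y => rd (g y) * (V y).2) y v * w.1 := by
      intro v w
      have := (d1.smul_const (ContinuousLinearMap.snd ℝ ℝ ℝ)).sub
        (d2.smul_const (ContinuousLinearMap.fst ℝ ℝ ℝ))
      have h2 := this.fderiv
      have h3 := congrArg (fun L => L v w) h2
      exact h3.trans (by simp)
    have e1' : ∀ v, fderiv ℝ (fun y => rd (g y) * (V y).1) y v =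
        rd (g y) * (fderiv ℝ V y v).1 + (V y).1 * fderiv ℝ (fun y => rd (g y)) y v := by
      intro v
      have := (dr.mul dV.fst).fderiv
      have h3 := congrArg (fun L => L v) this
      exact h3.trans (by simp)
    have e2' : ∀ v, fderiv ℝ (fun y => rd (g y) * (V y).2) y v =
        rd (g y) * (fderiv ℝ V y v).2 + (V y).2 * fderiv ℝ (fun y => rd (g y)) y v := by
      intro v
      have := (dr.mul dV.snd).fderiv
      have h3 := congrArg (fun L => L v) this
      exact h3.trans (by simp)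
    have hdz := div_zero h hε0 hgeo hB hBU hV hU hy
    rw [lin_app (fderiv ℝ (fun y => rd (g y)) y) (V y)] at hdz
    simp only [smul_eq_mul] at hdz
    have hs : fderiv ℝ (fun y => rd (g y) * (V y).1) y e1 +
        fderiv ℝ (fun y => rd (g y) * (V y).2) y e2 = 0 := by
      rw [e1', e2']
      linear_combination hdz
    rw [e, e, lin_app (fderiv ℝ (fun y => rd (g y) * (V y).1) y) v,
      lin_app (fderiv ℝ (fun y => rd (g y) * (V y).2) y) v,
      lin_app (fderiv ℝ (fun y => rd (g y) * (V y).1) y) w,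
      lin_app (fderiv ℝ (fun y => rd (g y) * (V y).2) y) w]
    simp only [smul_eq_mul]
    linear_combination (v.1 * w.2 - v.2 * w.1) * hs
  obtain ⟨H, hH⟩ := hconv.exists_forall_hasFDerivAt_of_fderiv_symmetric hB
    (cα.differentiableOn (by simp)) hclosed
  have cH : ContDiffOn ℝ ∞ H B := by
    rw [contDiffOn_infty_iff_fderiv_of_isOpen hB]
    exact ⟨fun y hy => (hH y hy).differentiableAt.differentiableWithinAt,
      cα.congr fun y hy => (hH y hy).fderiv⟩
  have cu : ContDiffOn ℝ ∞ (fun y => η y (V y)) B := (h.ηs.mono hBU).clm_apply hV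
  have cΦ : ContDiffOn ℝ ∞ (fun y => (H y, η y (V y))) B := cH.prodMk cu
  have hu' : ∀ y ∈ B, fderiv ℝ (fun y => η y (V y)) y (V y) = 1 := by
    intro y hy
    have dη : HasFDerivAt η (fderiv ℝ η y) y := dif (h.ηs.mono hBU) y hy
    have := (dη.clm_apply (dif hV y hy)).fderiv
    have h3 := congrArg (fun L => L (V y)) this
    have h4 : fderiv ℝ (fun y => η y (V y)) y (V y) =
        fderiv ℝ η y (V y) (V y) + η y (fderiv ℝ V y (V y)) := by
      refine h3.trans ?_
      simp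
      ring
    rw [h4, field_acc h hε0 hgeo hB hBU hV hU hy]
    exact (hU y hy).2.1
  have hΦ' : ∀ y ∈ B, HasFDerivAt (fun y => (H y, η y (V y)))
      ((α y).prod (fderiv ℝ (fun y => η y (V y)) y)) y := fun y hy =>
    (hH y hy).prodMk (dif cu y hy)
  have hαe : ∀ y v, α y v = rd (g y) * (V y).1 * v.2 - rd (g y) * (V y).2 * v.1 := by
    intro y v
    simp [hα]
  have hdet : ∀ y ∈ B, ((α y).prod (fderiv ℝ (fun y => η y (V y)) y)).det = -rd (g y) := by
    intro y hy
    have h1 := hu' y hy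
    rw [lin_app (fderiv ℝ (fun y => η y (V y)) y) (V y)] at h1
    rw [det_P]
    simp only [ContinuousLinearMap.prod_apply, hαe]
    simp only [smul_eq_mul] at h1
    simp only [show (e1).1 = (1 : ℝ) from rfl, show (e1).2 = (0 : ℝ) from rfl,
      show (e2).1 = (0 : ℝ) from rfl, show (e2).2 = (1 : ℝ) from rfl]
    linear_combination -rd (g y) * h1
  have hne : ((α y0).prod (fderiv ℝ (fun y => η y (V y)) y0)).det ≠ 0 := by
    rw [hdet y0 hy0B]
    exact neg_ne_zero.2 (h.lor y0 hy0).rd_pos.ne'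
  have hc0 : ContDiffAt ℝ ∞ (fun y => (H y, η y (V y))) y0 :=
    cΦ.contDiffAt (hB.mem_nhds hy0B)
  have hd0 : HasFDerivAt (fun y => (H y, η y (V y)))
      (((α y0).prod (fderiv ℝ (fun y => η y (V y)) y0)).toContinuousLinearEquivOfDetNeZero hne :
        P →L[ℝ] P) y0 := by
    have := hΦ' y0 hy0B
    exact this
  set T := hc0.toOpenPartialHomeomorph (fun y => (H y, η y (V y))) hd0 (by simp) with hT
  have hTc : ⇑T = fun y => (H y, η y (V y)) := rfl
  refine ⟨T.restrOpen B hB, ⟨hc0.mem_toOpenPartialHomeomorph_source hd0 (by simp), hy0B⟩, ?_⟩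
  have hsrc : (T.restrOpen B hB).source ⊆ B := fun y hy => hy.2
  have hcoe : ⇑(T.restrOpen B hB) = fun y => (H y, η y (V y)) := rfl
  refine ⟨fun y hy => hBU (hsrc hy), fun y hy => ?_, fun y hy => ?_, fun y hy v hv => ?_,
    fun y hy => ⟨V y, hU y (hsrc hy)⟩⟩
  · rw [hcoe]
    exact (cΦ.contDiffAt (hB.mem_nhds (hsrc hy))).of_le (by simp)
  · rw [hcoe, (hΦ' y (hsrc hy)).fderiv, hdet y (hsrc hy), abs_neg,
      abs_of_pos (h.lor y (hBU (hsrc hy))).rd_pos]
  · have hv' : v = V y := Un_unique h hε0 (hBU (hsrc hy)) (hU y (hsrc hy)) hv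
    rw [hcoe, (hΦ' y (hsrc hy)).fderiv, hv']
    refine ⟨?_, rfl⟩
    rw [ContinuousLinearMap.prod_apply, hu' y (hsrc hy), hαe]
    congr 1
    ring

end Pool.Agent.KS6_93.Lin
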