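import Pool.Agent.KS6_93.Lin.P4
import Pool.Graph.R_seed8.Helper831.SemiLemmas

/-!
# Lorentz surfaces in charts
-/

set_option autoImplicit false
set_option maxSynthPendingDepth 3
set_option linter.unusedSectionVars false

namespace Pool.Agent.KS6_93.Lin

open Set Filter Topology
open scoped ContDiff Manifold
open Pool.Agent.Helper831

lemma dg_pos {G : Bil} (hs : ∀ v w, G v w = G w v) {v w : P} (hv : 0 < G v v) (hw : G w w < 0) :
    0 < dg G := by
  rw [bil_app, hs e2 e1] at hv hw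
  unfold dg
  generalize G e1 e1 = a at *
  generalize G e1 e2 = b at *
  generalize G e2 e2 = c at *
  by_contra hc
  have h1 : b ^ 2 - a * c ≤ 0 := not_lt.1 hc
  have k1 : 0 ≤ a * (v.1 * v.1 * a + v.1 * v.2 * b + v.2 * v.1 * b + v.2 * v.2 * c) := by
    nlinarith [sq_nonneg (a * v.1 + b * v.2), mul_nonneg (sq_nonneg v.2) (neg_nonneg.2 h1)]
  have k2 : 0 ≤ a * (w.1 * w.1 * a + w.1 * w.2 * b + w.2 * w.1 * b + w.2 * w.2 * c) := by
    nlinarith [sq_nonneg (a * w.1 + b * w.2), mul_nonneg (sq_nonneg w.2) (neg_nonneg.2 h1)]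
  have a0 : 0 ≤ a := by
    by_contra hc
    have := mul_neg_of_neg_of_pos (not_le.1 hc) hv
    linarith
  have a1 : a ≤ 0 := by
    by_contra hc
    have := mul_neg_of_pos_of_neg (not_le.1 hc) hw
    linarith
  have a2 : a = 0 := le_antisymm a1 a0
  subst a2
  have b0 : b = 0 := by nlinarith [sq_nonneg b]
  subst b0
  have hv' : 0 < v.2 ^ 2 * c := by nlinarith
  have hw' : w.2 ^ 2 * c < 0 := by nlinarith
  have c1 : 0 < c := by
    by_contra hc
    nlinarith [mul_nonneg (sq_nonneg v.2) (neg_nonneg.2 (not_lt.1 hc))]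
  nlinarith [mul_nonneg (sq_nonneg w.2) c1.le]

variable {E : Type*} [NormedAddCommGroup E] [NormedSpace ℝ E] [FiniteDimensional ℝ E]
  {M : Type*} [TopologicalSpace M] [ChartedSpace E M] [IsManifold 𝓘(ℝ, E) ∞ M]
  (g : SemiRiemannianMetric E M) (η : OneForm E M) (L : E ≃L[ℝ] P)

/-- the domain of the coordinates -/
def Ue (e : OpenPartialHomeomorph M E) : Set P := L.symm ⁻¹' e.target

/-- the metric in coordinates -/
noncomputable def gL (e : OpenPartialHomeomorph M E) (y : P) : Bil :=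
  (Gm g e (L.symm y)).bilinearComp (L.symm : P →L[ℝ] E) (L.symm : P →L[ℝ] E)

/-- the 1-form in coordinates -/
noncomputable def ηL (e : OpenPartialHomeomorph M E) (y : P) : P →L[ℝ] ℝ :=
  (Hm η e (L.symm y)).comp (L.symm : P →L[ℝ] E)

/-- the acceleration in coordinates -/
noncomputable def AL (e : OpenPartialHomeomorph M E) (y v : P) : P :=
  L (acc g e (L.symm y) (L.symm v))

lemma gL_app (e : OpenPartialHomeomorph M E) (y v w : P) :
    gL g L e y v w = Gm g e (L.symm y) (L.symm v) (L.symm w) := rfl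

lemma ηL_app (e : OpenPartialHomeomorph M E) (y v : P) :
    ηL η L e y v = Hm η e (L.symm y) (L.symm v) := rfl

variable {e : OpenPartialHomeomorph M E}

lemma gL_smooth (he : e ∈ atlas E M) : ContDiffOn ℝ ∞ (gL g L e) (Ue L e) := by
  have h1 : ContDiffOn ℝ ∞ (fun y => Gm g e (L.symm y)) (Ue L e) :=
    (contDiffOn_Gm g he).comp L.symm.contDiff.contDiffOn fun y hy => hy
  rw [contDiffOn_clm_apply]
  intro u
  rw [contDiffOn_clm_apply]
  intro w
  exact (h1.clm_apply contDiffOn_const).clm_apply contDiffOn_const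

lemma ηL_smooth (he : e ∈ atlas E M) : ContDiffOn ℝ ∞ (ηL η L e) (Ue L e) := by
  have h1 : ContDiffOn ℝ ∞ (fun y => Hm η e (L.symm y)) (Ue L e) :=
    (contDiffOn_Hm η he).comp L.symm.contDiff.contDiffOn fun y hy => hy
  rw [contDiffOn_clm_apply]
  intro u
  exact h1.clm_apply contDiffOn_const

lemma Ue_open (e : OpenPartialHomeomorph M E) : IsOpen (Ue L e) :=
  e.open_target.preimage L.symm.continuous

lemma fderiv_gL (he : e ∈ atlas E M) {y : P} (hy : y ∈ Ue L e) (u v w : P) :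
    fderiv ℝ (gL g L e) y u v w =
      fderiv ℝ (Gm g e) (L.symm y) (L.symm u) (L.symm v) (L.symm w) := by
  have h1 : HasFDerivAt (gL g L e) (fderiv ℝ (gL g L e) y) y :=
    (((gL_smooth g L he).contDiffAt ((Ue_open L e).mem_nhds hy)).differentiableAt
      (by simp)).hasFDerivAt
  have h2 : HasFDerivAt (Gm g e) (fderiv ℝ (Gm g e) (L.symm y)) (L.symm y) :=
    (((contDiffOn_Gm g he).contDiffAt (e.open_target.mem_nhds hy)).differentiableAt
      (by simp)).hasFDerivAt
  have h3 : HasFDerivAt (fun y => Gm g e (L.symm y)) _ y := h2.comp y L.symm.hasFDerivAt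
  have h4 := (h3.clm_apply (hasFDerivAt_const (L.symm v) y)).clm_apply
    (hasFDerivAt_const (L.symm w) y)
  have h5 := (h1.clm_apply (hasFDerivAt_const v y)).clm_apply (hasFDerivAt_const w y)
  have h6 := congrArg (fun K => K u) (h5.unique h4)
  simpa using h6

lemma fderiv_ηL (he : e ∈ atlas E M) {y : P} (hy : y ∈ Ue L e) (u v : P) :
    fderiv ℝ (ηL η L e) y u v = fderiv ℝ (Hm η e) (L.symm y) (L.symm u) (L.symm v) := by
  have h1 : HasFDerivAt (ηL η L e) (fderiv ℝ (ηL η L e) y) y :=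
    (((ηL_smooth η L he).contDiffAt ((Ue_open L e).mem_nhds hy)).differentiableAt
      (by simp)).hasFDerivAt
  have h2 : HasFDerivAt (Hm η e) (fderiv ℝ (Hm η e) (L.symm y)) (L.symm y) :=
    (((contDiffOn_Hm η he).contDiffAt (e.open_target.mem_nhds hy)).differentiableAt
      (by simp)).hasFDerivAt
  have h3 : HasFDerivAt (fun y => Hm η e (L.symm y)) _ y := h2.comp y L.symm.hasFDerivAt
  have h4 := h3.clm_apply (hasFDerivAt_const (L.symm v) y)
  have h5 := h1.clm_apply (hasFDerivAt_const v y)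
  have h6 := congrArg (fun K => K u) (h5.unique h4)
  simpa using h6

lemma dat (hi : g.IsIndefinite) (he : e ∈ atlas E M) :
    Dat (Ue L e) (gL g L e) (ηL η L e) (AL g L e) := by
  have hsy : ∀ y v w, gL g L e y v w = gL g L e y w v := fun y v w => Gm_symm g e _ _ _
  refine ⟨Ue_open L e, gL_smooth g L he, fun y hy => ⟨hsy y, ?_⟩, ηL_smooth η L he,
    fun y hy v w => ?_⟩
  · obtain ⟨⟨v, hv⟩, ⟨w, hw⟩⟩ := hi (e.symm (L.symm y))
    obtain ⟨v', rfl⟩ := exists_cvec he hy v
    obtain ⟨w', rfl⟩ := exists_cvec he hy w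
    refine dg_pos (hsy y) (v := L v') (w := L w') ?_ ?_
    · rw [gL_app, L.symm_apply_apply]
      exact hv
    · rw [gL_app, L.symm_apply_apply]
      exact hw
  · rw [gL_app, fderiv_gL g L he hy, fderiv_gL g L he hy]
    unfold AL
    rw [L.symm_apply_apply, acc_spec' g he hy, bvec_apply]

lemma Q_ηL (he : e ∈ atlas E M) {y : P} (hy : y ∈ Ue L e) (v : P) :
    Q (ηL η L e) (AL g L e) y v = Qf g η e (L.symm y) (L.symm v) := by
  unfold Q Qf
  rw [fderiv_ηL η L he hy, ηL_app]
  unfold AL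
  rw [L.symm_apply_apply]

/-! ### curves -/

/-- the velocity in coordinates -/
noncomputable def cv (e : OpenPartialHomeomorph M E) (γ : ℝ → M) (t : ℝ) : P :=
  L (deriv (fun r => e (γ r)) t)

variable {γ : ℝ → M} {t : ℝ}

lemma mem_Ue (ht : γ t ∈ e.source) : L (e (γ t)) ∈ Ue L e := by
  unfold Ue
  rw [mem_preimage, L.symm_apply_apply]
  exact e.map_source ht

lemma cur_deriv (he : e ∈ atlas E M) (hγ : g.IsGeodesic γ) (ht : γ t ∈ e.source) :
    HasDerivAt (fun r => L (e (γ r))) (cv L e γ t) t := by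
  have h1 : HasDerivAt (fun r => e (γ r)) (deriv (fun r => e (γ r)) t) t :=
    ((contDiffAt_coord he hγ.1 ht).differentiableAt (by simp)).hasDerivAt
  exact L.hasFDerivAt.comp_hasDerivAt t h1

lemma cv_deriv (he : e ∈ atlas E M) (hγ : g.IsGeodesic γ) (ht : γ t ∈ e.source) :
    HasDerivAt (cv L e γ) (AL g L e (L (e (γ t))) (cv L e γ t)) t := by
  have h1 := hasDerivAt_deriv_coord he hγ.1 ht
  rw [geodesic_acc g he hγ ht] at h1
  have h2 := L.hasFDerivAt.comp_hasDerivAt t h1
  unfold AL cv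
  rw [L.symm_apply_apply, L.symm_apply_apply]
  exact h2

lemma form_vel (he : e ∈ atlas E M) (hγ : MDifferentiableAt 𝓘(ℝ, ℝ) 𝓘(ℝ, E) γ t)
    (ht : γ t ∈ e.source) :
    g.form (γ t) (velocity E γ t) (velocity E γ t) =
      gL g L e (L (e (γ t))) (cv L e γ t) (cv L e γ t) := by
  have h := velocity_eq_cvec he hγ ht
  have h2 := congrArg (fun p : TangentBundle 𝓘(ℝ, E) M => g.form p.1 p.2 p.2) h
  rw [gL_app]
  unfold cv
  rw [L.symm_apply_apply, L.symm_apply_apply]
  exact h2

lemma eval_vel (he : e ∈ atlas E M) (hγ : MDifferentiableAt 𝓘(ℝ, ℝ) 𝓘(ℝ, E) γ t)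
    (ht : γ t ∈ e.source) :
    η.form (γ t) (velocity E γ t) = ηL η L e (L (e (γ t))) (cv L e γ t) := by
  have h := velocity_eq_cvec he hγ ht
  have h2 := congrArg (fun p : TangentBundle 𝓘(ℝ, E) M => η.form p.1 p.2) h
  rw [ηL_app]
  unfold cv
  rw [L.symm_apply_apply, L.symm_apply_apply]
  exact h2

lemma eval_deriv (he : e ∈ atlas E M) (hγ : g.IsGeodesic γ) (ht : γ t ∈ e.source) :
    HasDerivAt (fun s => η.form (γ s) (velocity E γ s))
      (Q (ηL η L e) (AL g L e) (L (e (γ t))) (cv L e γ t)) t := by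
  have hder := hasDerivAt_Hm g η he hγ ht
  rw [Q_ηL g η L he (mem_Ue L ht)]
  unfold cv
  rw [L.symm_apply_apply, L.symm_apply_apply]
  refine hder.congr_of_eventuallyEq ?_
  have hcont : ContinuousAt γ t := (hγ.1 t).continuousAt
  filter_upwards [hcont.eventually_mem (e.open_source.mem_nhds ht)] with r hr
  have h := velocity_eq_cvec he ((hγ.1 r).mdifferentiableAt (by simp)) hr
  exact congrArg (fun p : TangentBundle 𝓘(ℝ, E) M => η.form p.1 p.2) h

end Pool.Agent.KS6_93.Lin
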