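import Pool.Agent.KS6_93.Lin.P5

/-!
# Normalised light-like geodesics
-/

set_option autoImplicit false
set_option maxSynthPendingDepth 3
set_option linter.unusedSectionVars false

namespace Pool.Agent.KS6_93.Lin

open Set Filter Topology
open scoped ContDiff Manifold
open Pool.Agent.Helper831

/-! ### types and limits -/

lemma dg_cont : Continuous (fun G : Bil => dg G) := by
  unfold dg
  fun_prop

lemma rd_cont : Continuous (fun G : Bil => rd G) := Real.continuous_sqrt.comp dg_cont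

lemma om_cont (w : P) : Continuous (fun v : P => om v w) := by
  unfold om
  fun_prop

lemma exists_om {v : P} (hv : v ≠ 0) : ∃ w, om v w ≠ 0 := by
  by_contra hc
  push Not at hc
  apply hv
  have h1 := hc e1
  have h2 := hc e2
  rw [om_e1] at h1
  rw [om_e2] at h2
  exact Prod.ext h2 (by simpa using h1)

lemma tendsto_clm {ι F₁ F₂ : Type*} [NormedAddCommGroup F₁] [NormedSpace ℝ F₁]
    [NormedAddCommGroup F₂] [NormedSpace ℝ F₂] {l : Filter ι} {f : ι → F₁ →L[ℝ] F₂}
    {f0 : F₁ →L[ℝ] F₂} {x : ι → F₁} {x0 : F₁} (hf : Tendsto f l (𝓝 f0))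
    (hx : Tendsto x l (𝓝 x0)) : Tendsto (fun i => f i (x i)) l (𝓝 (f0 x0)) :=
  ((isBoundedBilinearMap_apply (𝕜 := ℝ) (E := F₁) (F := F₂)).continuous.tendsto
    (f0, x0)).comp (hf.prodMk_nhds hx)

section
variable {ι : Type*} {l : Filter ι} {c c' : ι → P} {y v : P} {G : P → Bil} {ε : ℝ}

lemma typ_ev (hG : ContinuousAt G y) (hL : Lor (G y)) (hc : Tendsto c l (𝓝 y))
    (hc' : Tendsto c' l (𝓝 v)) (hε : ε = 1 ∨ ε = -1) (hv : Typ ε (G y) v) (hv0 : v ≠ 0)
    (hn : ∀ᶠ i in l, Typ 1 (G (c i)) (c' i) ∨ Typ (-1) (G (c i)) (c' i)) :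
    ∀ᶠ i in l, Typ ε (G (c i)) (c' i) := by
  obtain ⟨w, hw⟩ := exists_om hv0
  have t1 : Tendsto (fun i => G (c i) (c' i) w * (ε * om (c' i) w)) l
      (𝓝 (G y v w * (ε * om v w))) := by
    have h1 : Tendsto (fun i => G (c i)) l (𝓝 (G y)) := hG.tendsto.comp hc
    have h2 : Tendsto (fun i => G (c i) (c' i)) l (𝓝 (G y v)) := tendsto_clm h1 hc'
    exact (tendsto_clm h2 tendsto_const_nhds).mul
      (tendsto_const_nhds.mul (((om_cont w).tendsto v).comp hc'))
  have hpos : 0 < G y v w * (ε * om v w) := by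
    rw [hv w]
    have h1 : ε ^ 2 = 1 := by rcases hε with rfl | rfl <;> norm_num
    have h2 : ε * rd (G y) * om v w * (ε * om v w) = ε ^ 2 * (rd (G y) * om v w ^ 2) := by ring
    rw [h2, h1, one_mul]
    exact mul_pos hL.rd_pos (by positivity)
  filter_upwards [hn, t1.eventually (lt_mem_nhds hpos)] with i hi h0
  have key : ∀ δ : ℝ, Typ δ (G (c i)) (c' i) → δ * ε = -1 → False := by
    intro δ hδ h1
    rw [hδ w] at h0
    have h2 : δ * rd (G (c i)) * om (c' i) w * (ε * om (c' i) w) =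
      δ * ε * (rd (G (c i)) * om (c' i) w ^ 2) := by ring
    rw [h2, h1] at h0
    have h3 : 0 ≤ rd (G (c i)) * om (c' i) w ^ 2 :=
      mul_nonneg (Real.sqrt_nonneg _) (sq_nonneg _)
    linarith
  rcases hε with rfl | rfl
  · rcases hi with h | h
    · exact h
    · exact (key _ h (by norm_num)).elim
  · rcases hi with h | h
    · exact (key _ h (by norm_num)).elim
    · exact h

lemma typ_lim [l.NeBot] (hG : ContinuousAt G y) (hc : Tendsto c l (𝓝 y))
    (hc' : Tendsto c' l (𝓝 v)) (hn : ∀ᶠ i in l, Typ ε (G (c i)) (c' i)) : Typ ε (G y) v := by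
  intro w
  have h1 : Tendsto (fun i => G (c i)) l (𝓝 (G y)) := hG.tendsto.comp hc
  have t1 : Tendsto (fun i => G (c i) (c' i) w) l (𝓝 (G y v w)) :=
    tendsto_clm (tendsto_clm h1 hc') tendsto_const_nhds
  have t2 : Tendsto (fun i => ε * rd (G (c i)) * om (c' i) w) l (𝓝 (ε * rd (G y) * om v w)) :=
    (tendsto_const_nhds.mul ((rd_cont.tendsto _).comp h1)).mul (((om_cont w).tendsto v).comp hc')
  refine tendsto_nhds_unique t1 (t2.congr' ?_)
  filter_upwards [hn] with i hi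
  exact (hi w).symm

end

variable {E : Type*} [NormedAddCommGroup E] [NormedSpace ℝ E] [FiniteDimensional ℝ E]
  {M : Type*} [TopologicalSpace M] [ChartedSpace E M] [IsManifold 𝓘(ℝ, E) ∞ M]
  (g : SemiRiemannianMetric E M) (η : OneForm E M) (L : E ≃L[ℝ] P)

/-- `g` is complete for light-like vectors: each of them is the initial velocity of a geodesic
defined on `ℝ`. -/
def IsNullComplete : Prop :=
  ∀ (x : M) (v : TangentSpace 𝓘(ℝ, E) x), g.form x v v = 0 → ∃ γ : ℝ → M, g.IsGeodesic γ ∧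
    (⟨γ 0, velocity E γ 0⟩ : TangentBundle 𝓘(ℝ, E) M) = ⟨x, v⟩

/-- `η` is affine along every light-like geodesic -/
def Aff : Prop :=
  ∀ γ : ℝ → M, g.IsLightlikeGeodesic γ → ∃ C₁ C₂ : ℝ, ∀ t, η.form (γ t) (velocity E γ t) =
    C₁ * t + C₂

/-- normalised geodesics -/
structure UG (u0 : ℝ) (γ : ℝ → M) : Prop where
  geo : g.IsGeodesic γ
  null : ∀ t, g.form (γ t) (velocity E γ t) (velocity E γ t) = 0
  lin : ∀ t, η.form (γ t) (velocity E γ t) = t + u0

variable {g η} {e : OpenPartialHomeomorph M E} {γ : ℝ → M} {t u0 ε : ℝ}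

lemma md (hγ : g.IsGeodesic γ) (t : ℝ) : MDifferentiableAt 𝓘(ℝ, ℝ) 𝓘(ℝ, E) γ t :=
  (hγ.1 t).mdifferentiableAt (by simp)

lemma geo_cont (hγ : g.IsGeodesic γ) (t : ℝ) : ContinuousAt γ t := (hγ.1 t).continuousAt

lemma energy (hγ : g.IsGeodesic γ) (t : ℝ) :
    g.form (γ t) (velocity E γ t) (velocity E γ t)
      = g.form (γ 0) (velocity E γ 0) (velocity E γ 0) := by
  have hd : ∀ t, HasDerivAt (fun s => g.form (γ s) (velocity E γ s) (velocity E γ s)) 0 t := by
    intro t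
    have he := chart_mem_atlas E (γ t)
    have ht := mem_chart_source E (γ t)
    have h1 := hasDerivAt_energy g he hγ ht
    refine h1.congr_of_eventuallyEq ?_
    filter_upwards [(geo_cont hγ t).eventually_mem ((chartAt E (γ t)).open_source.mem_nhds ht)]
      with r hr
    have h := velocity_eq_cvec he (md hγ r) hr
    exact congrArg (fun p : TangentBundle 𝓘(ℝ, E) M => g.form p.1 p.2 p.2) h
  exact is_const_of_deriv_eq_zero (fun t => (hd t).differentiableAt) (fun t => (hd t).deriv) t 0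

/-- the geodesic with given initial coordinates -/
lemma start (hcomp : IsNullComplete g) (haff : Aff g η) (he : e ∈ atlas E M) {y v : P}
    (hy : y ∈ Ue L e) (hv : v ≠ 0) (hnull : gL g L e y v v = 0) :
    ∃ γ : ℝ → M, g.IsGeodesic γ ∧ γ 0 ∈ e.source ∧ L (e (γ 0)) = y ∧ cv L e γ 0 = v ∧
      (∀ t, g.form (γ t) (velocity E γ t) (velocity E γ t) = 0) ∧
      ∀ t, η.form (γ t) (velocity E γ t) = Q (ηL η L e) (AL g L e) y v * t + ηL η L e y v := by
  obtain ⟨γ, hγ, hγ0⟩ := hcomp (e.symm (L.symm y)) (coordVec e (L.symm y) (L.symm v)) hnull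
  have hbase : γ 0 = e.symm (L.symm y) :=
    congrArg (fun p : TangentBundle 𝓘(ℝ, E) M => p.1) hγ0
  have hsrc : γ 0 ∈ e.source := by rw [hbase]; exact e.map_target hy
  have hy0 : e (γ 0) = L.symm y := by rw [hbase]; exact e.right_inv hy
  have h1 := velocity_eq_cvec he (md hγ 0) hsrc
  rw [hγ0, hy0] at h1
  have h2 : (coordVec e (L.symm y) (L.symm v) : TangentSpace 𝓘(ℝ, E) (e.symm (L.symm y)))
      = mfderiv 𝓘(ℝ, E) 𝓘(ℝ, E) e.symm (L.symm y) (deriv (fun r => e (γ r)) 0) := by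
    unfold cvec at h1
    exact eq_of_heq (Bundle.TotalSpace.mk.inj h1).2
  have h3 : deriv (fun r => e (γ r)) 0 = L.symm v := by
    have h4 : mfderiv 𝓘(ℝ, E) 𝓘(ℝ, E) e.symm (L.symm y)
        (deriv (fun r => e (γ r)) 0 - L.symm v) = 0 := by
      have h5 : mfderiv 𝓘(ℝ, E) 𝓘(ℝ, E) e.symm (L.symm y)
          (deriv (fun r => e (γ r)) 0 - L.symm v)
        = mfderiv 𝓘(ℝ, E) 𝓘(ℝ, E) e.symm (L.symm y) (deriv (fun r => e (γ r)) 0)
          - mfderiv 𝓘(ℝ, E) 𝓘(ℝ, E) e.symm (L.symm y) (L.symm v) :=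
        (mfderiv 𝓘(ℝ, E) 𝓘(ℝ, E) e.symm (L.symm y)).map_sub _ _
      rw [h5, ← h2]
      exact sub_self _
    exact sub_eq_zero.1 (cvec_injective he hy _ h4)
  have hyc : L (e (γ 0)) = y := by rw [hy0, L.apply_symm_apply]
  have hvc : cv L e γ 0 = v := by unfold cv; rw [h3, L.apply_symm_apply]
  have hnl : ∀ t, g.form (γ t) (velocity E γ t) (velocity E γ t) = 0 := by
    intro t
    rw [energy hγ t, form_vel g L he (md hγ 0) hsrc, hyc, hvc, hnull]
  have hlight : g.IsLightlikeGeodesic γ := by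
    refine ⟨hγ, ?_, hnl⟩
    by_contra hc
    push Not at hc
    apply hv
    rw [← hvc]
    unfold cv
    have : (fun r => e (γ r)) = fun _ => e (γ 0) := by
      ext1 r
      rw [hc r 0]
    rw [this]
    simp
  obtain ⟨C₁, C₂, hC⟩ := haff γ hlight
  have hder := eval_deriv g η L he hγ hsrc
  rw [hyc, hvc] at hder
  have hder3 : HasDerivAt (fun s => η.form (γ s) (velocity E γ s)) C₁ 0 := by
    have : (fun s => η.form (γ s) (velocity E γ s)) = fun s => C₁ * s + C₂ := funext hC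
    rw [this]
    simpa using ((hasDerivAt_id (0 : ℝ)).const_mul C₁).add_const C₂
  have hC1 : C₁ = Q (ηL η L e) (AL g L e) y v := (hder.unique hder3).symm
  have hC2 : C₂ = ηL η L e y v := by
    have h5 := hC 0
    rw [eval_vel η L he (md hγ 0) hsrc, hyc, hvc] at h5
    linarith
  refine ⟨γ, hγ, hsrc, hyc, hvc, hnl, fun t => ?_⟩
  rw [← hC1, ← hC2]
  exact hC t

lemma start_UG (hcomp : IsNullComplete g) (haff : Aff g η) (he : e ∈ atlas E M) {y v : P}
    (hy : y ∈ Ue L e) (hv : Un ε (gL g L e) (ηL η L e) (AL g L e) y v) :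
    ∃ γ : ℝ → M, UG g η (ηL η L e y v) γ ∧ γ 0 ∈ e.source ∧ L (e (γ 0)) = y ∧
      cv L e γ 0 = v := by
  obtain ⟨γ, h1, h2, h3, h4, h5, h6⟩ := start L hcomp haff he hy hv.ne hv.1.null
  refine ⟨γ, ⟨h1, h5, fun t => ?_⟩, h2, h3, h4⟩
  rw [h6 t, hv.2.1, one_mul]

lemma UG.typ (hi : g.IsIndefinite) (h : UG g η u0 γ) (he : e ∈ atlas E M)
    (ht : γ t ∈ e.source) : Typ 1 (gL g L e (L (e (γ t)))) (cv L e γ t) ∨
      Typ (-1) (gL g L e (L (e (γ t)))) (cv L e γ t) := by
  refine null_typ ((dat g η L hi he).lor _ (mem_Ue L ht)) ?_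
  rw [← form_vel g L he (md h.geo t) ht]
  exact h.null t

lemma UG.slope (h : UG g η u0 γ) (he : e ∈ atlas E M) (ht : γ t ∈ e.source) :
    Q (ηL η L e) (AL g L e) (L (e (γ t))) (cv L e γ t) = 1 := by
  have h1 := eval_deriv g η L he h.geo ht
  have h2 : HasDerivAt (fun s => η.form (γ s) (velocity E γ s)) 1 t := by
    have : (fun s => η.form (γ s) (velocity E γ s)) = fun s => s + u0 := funext h.lin
    rw [this]
    exact (hasDerivAt_id t).add_const u0
  exact h1.unique h2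

lemma UG.val (h : UG g η u0 γ) (he : e ∈ atlas E M) (ht : γ t ∈ e.source) :
    ηL η L e (L (e (γ t))) (cv L e γ t) = t + u0 := by
  rw [← eval_vel η L he (md h.geo t) ht]
  exact h.lin t

lemma UG.un (h : UG g η u0 γ) (he : e ∈ atlas E M) (ht : γ t ∈ e.source) (hu : 0 < t + u0)
    (hT : Typ ε (gL g L e (L (e (γ t)))) (cv L e γ t)) :
    Un ε (gL g L e) (ηL η L e) (AL g L e) (L (e (γ t))) (cv L e γ t) :=
  ⟨hT, h.slope L he ht, by rw [h.val L he ht]; exact hu⟩

lemma cont_gL (he : e ∈ atlas E M) {y : P} (hy : y ∈ Ue L e) : ContinuousAt (gL g L e) y :=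
  (gL_smooth g L he).continuousOn.continuousAt ((Ue_open L e).mem_nhds hy)

lemma UG.ne (h : UG g η u0 γ) (he : e ∈ atlas E M) (ht : γ t ∈ e.source) (hu : 0 < t + u0) :
    cv L e γ t ≠ 0 := by
  intro h0
  have := h.val L he ht
  rw [h0, map_zero] at this
  linarith

/-- the type does not change -/
lemma UG.typ_ev (hi : g.IsIndefinite) (h : UG g η u0 γ) (he : e ∈ atlas E M)
    (ht : γ t ∈ e.source) (hu : 0 < t + u0) (hε : ε = 1 ∨ ε = -1)
    (hT : Typ ε (gL g L e (L (e (γ t)))) (cv L e γ t)) :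
    ∀ᶠ s in 𝓝 t, Typ ε (gL g L e (L (e (γ s)))) (cv L e γ s) := by
  refine Lin.typ_ev (cont_gL L he (mem_Ue L ht)) ((dat g η L hi he).lor _ (mem_Ue L ht))
    (cur_deriv g L he h.geo ht).continuousAt (cv_deriv g L he h.geo ht).continuousAt hε hT
    (h.ne L he ht hu) ?_
  filter_upwards [(geo_cont h.geo t).eventually_mem (e.open_source.mem_nhds ht)] with s hs
  exact h.typ L hi he hs

/-- there are normalised geodesics -/
lemma geo_hyp (hi : g.IsIndefinite) (hcomp : IsNullComplete g) (haff : Aff g η)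
    (he : e ∈ atlas E M) (hε : ε = 1 ∨ ε = -1) :
    Geo ε (Ue L e) (gL g L e) (ηL η L e) (AL g L e) := by
  intro y hy v hv
  obtain ⟨γ, hγ, h1, h2, h3⟩ := start_UG L hcomp haff he hy hv
  have hpos : 0 < (0 : ℝ) + ηL η L e y v := by rw [zero_add]; exact hv.2.2
  refine ⟨fun r => L (e (γ r)), cv L e γ, h2, h3, ?_, ?_⟩
  · have hT : Typ ε (gL g L e (L (e (γ 0)))) (cv L e γ 0) := by rw [h2, h3]; exact hv.1
    filter_upwards [(geo_cont hγ.geo 0).eventually_mem (e.open_source.mem_nhds h1),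
      hγ.typ_ev L hi he h1 hpos hε hT,
      (continuousAt_id.add continuousAt_const).eventually (lt_mem_nhds hpos)] with s hs hs2 hs3
    exact ⟨cur_deriv g L he hγ.geo hs, hγ.un L he hs hs3 hs2⟩
  · have := cv_deriv g L he hγ.geo h1
    rw [h2, h3] at this
    exact this

end Pool.Agent.KS6_93.Lin
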