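import Pool.Agent.KS6_93.Lin.P6

/-!
# Normalised geodesics in the special coordinates; uniqueness
-/

set_option autoImplicit false
set_option maxSynthPendingDepth 3
set_option linter.unusedSectionVars false

namespace Pool.Agent.KS6_93.Lin

open Set Filter Topology
open scoped ContDiff Manifold
open Pool.Agent.Helper831

variable {E : Type*} [NormedAddCommGroup E] [NormedSpace ℝ E] [FiniteDimensional ℝ E]
  {M : Type*} [TopologicalSpace M] [ChartedSpace E M] [IsManifold 𝓘(ℝ, E) ∞ M]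
  {g : SemiRiemannianMetric E M} {η : OneForm E M} (L : E ≃L[ℝ] P)
  {e : OpenPartialHomeomorph M E} {γ : ℝ → M} {t u0 ε : ℝ}

/-- the inverse chart -/
noncomputable def Ei (e : OpenPartialHomeomorph M E) (y : P) : M := e.symm (L.symm y)

lemma Ei_cont {y : P} (hy : y ∈ Ue L e) : ContinuousAt (Ei L e) y :=
  ContinuousAt.comp (g := e.symm) (e.continuousAt_symm hy) L.symm.continuous.continuousAt

lemma Ei_mem {y : P} (hy : y ∈ Ue L e) : Ei L e y ∈ e.source := e.map_target hy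

lemma Le_Ei {y : P} (hy : y ∈ Ue L e) : L (e (Ei L e y)) = y := by
  unfold Ei
  rw [e.right_inv hy, L.apply_symm_apply]

lemma Ei_Le {x : M} (hx : x ∈ e.source) : Ei L e (L (e x)) = x := by
  unfold Ei
  rw [L.symm_apply_apply, e.left_inv hx]

/-- in the coordinates the normalised geodesics are vertical lines -/
lemma stay [T2Space M] (hi : g.IsIndefinite) (he : e ∈ atlas E M)
    (hε : ε = 1 ∨ ε = -1) {Θ : OpenPartialHomeomorph P P}
    (hΘ : Bx ε (Ue L e) (gL g L e) (ηL η L e) (AL g L e) Θ) (hγ : UG g η u0 γ)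
    {a b t1 k : ℝ} (hI : t1 ∈ Ioo a b) (ha : -u0 ≤ a)
    (hbox : ∀ s ∈ Ioo a b, (k, s + u0) ∈ Θ.target) (h1 : γ t1 ∈ e.source)
    (h2 : L (e (γ t1)) = Θ.symm (k, t1 + u0))
    (h3 : Typ ε (gL g L e (L (e (γ t1)))) (cv L e γ t1)) :
    ∀ s ∈ Ioo a b, γ s ∈ e.source ∧ L (e (γ s)) = Θ.symm (k, s + u0) ∧
      Typ ε (gL g L e (L (e (γ s)))) (cv L e γ s) := by
  set T : Set ℝ := {s | s ∈ Ioo a b ∧ γ s ∈ e.source ∧ L (e (γ s)) = Θ.symm (k, s + u0) ∧
      Typ ε (gL g L e (L (e (γ s)))) (cv L e γ s)} with hT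
  have hopen : IsOpen T := by
    rw [isOpen_iff_mem_nhds]
    rintro s ⟨s1, s2, s3, s4⟩
    have hpos : 0 < s + u0 := by linarith [s1.1]
    have hsrc : L (e (γ s)) ∈ Θ.source := by rw [s3]; exact Θ.map_target (hbox s s1)
    have hc := (cur_deriv g L he hγ.geo s2).continuousAt
    have hev : ∀ᶠ r in 𝓝 s, r ∈ Ioo a b ∧ γ r ∈ e.source ∧ L (e (γ r)) ∈ Θ.source ∧
        Typ ε (gL g L e (L (e (γ r)))) (cv L e γ r) := by
      filter_upwards [Ioo_mem_nhds s1.1 s1.2,
        (geo_cont hγ.geo s).eventually_mem (e.open_source.mem_nhds s2),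
        hc.eventually_mem (Θ.open_source.mem_nhds hsrc),
        hγ.typ_ev L hi he s2 hpos hε s4] with r r1 r2 r3 r4
      exact ⟨r1, r2, r3, r4⟩
    obtain ⟨δ, hδ, hball⟩ := Metric.eventually_nhds_iff_ball.1 hev
    have hder : ∀ r ∈ Metric.ball s δ, HasDerivAt (fun r => Θ (L (e (γ r)))) ((0, 1) : P) r := by
      intro r hr
      obtain ⟨r1, r2, r3, r4⟩ := hball r hr
      have hpr : 0 < r + u0 := by linarith [r1.1]
      have hv := (hΘ.vec _ r3 _ (hγ.un L he r2 hpr r4)).1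
      have hd : HasFDerivAt Θ (fderiv ℝ Θ (L (e (γ r)))) (L (e (γ r))) :=
        ((hΘ.cd _ r3).differentiableAt (by simp)).hasFDerivAt
      have := hd.comp_hasDerivAt r (cur_deriv g L he hγ.geo r2)
      rw [hv] at this
      exact this
    have hder1 : ∀ r ∈ Metric.ball s δ, HasDerivAt (fun r => (Θ (L (e (γ r)))).1) 0 r := by
      intro r hr
      have := (ContinuousLinearMap.fst ℝ ℝ ℝ).hasFDerivAt.comp_hasDerivAt r (hder r hr)
      exact this
    have hconst : ∀ r ∈ Metric.ball s δ, (Θ (L (e (γ r)))).1 = (Θ (L (e (γ s)))).1 := by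
      intro r hr
      have hconv : Convex ℝ (Metric.ball s δ) := convex_ball s δ
      refine hconv.is_const_of_fderivWithin_eq_zero (𝕜 := ℝ)
        (f := fun r => (Θ (L (e (γ r)))).1) ?_ ?_ hr (Metric.mem_ball_self hδ)
      · intro x hx
        exact (hder1 x hx).differentiableAt.differentiableWithinAt
      · intro x hx
        rw [fderivWithin_of_isOpen Metric.isOpen_ball hx, (hder1 x hx).hasFDerivAt.fderiv]
        ext
        simp
    filter_upwards [Metric.ball_mem_nhds s hδ] with r hr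
    obtain ⟨r1, r2, r3, r4⟩ := hball r hr
    refine ⟨r1, r2, ?_, r4⟩
    have hpr : 0 < r + u0 := by linarith [r1.1]
    have hv := (hΘ.vec _ r3 _ (hγ.un L he r2 hpr r4)).2
    rw [hγ.val L he r2] at hv
    have h5 : Θ (L (e (γ r))) = (k, r + u0) := by
      refine Prod.ext ?_ hv
      rw [hconst r hr, s3, Θ.right_inv (hbox s s1)]
    rw [← h5, Θ.left_inv r3]
  have hsub : Ioo a b ⊆ T := by
    refine isPreconnected_Ioo.subset_of_closure_inter_subset hopen
      ⟨t1, hI, hI, h1, h2, h3⟩ ?_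
    rintro s ⟨hcl, hs⟩
    haveI : (𝓝[T] s).NeBot := mem_closure_iff_nhdsWithin_neBot.1 hcl
    set z : P := Θ.symm (k, s + u0) with hz
    have hzs : z ∈ Θ.source := Θ.map_target (hbox s hs)
    have hzU : z ∈ Ue L e := hΘ.sub hzs
    have hzc : ContinuousAt (fun r : ℝ => Θ.symm (k, r + u0)) s :=
      ContinuousAt.comp (g := Θ.symm) (Θ.continuousAt_symm (hbox s hs)) (by fun_prop)
    have hγs : γ s = Ei L e z := by
      have t1' : Tendsto γ (𝓝[T] s) (𝓝 (γ s)) := (geo_cont hγ.geo s).tendsto.mono_left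
        nhdsWithin_le_nhds
      have t2' : Tendsto (fun r : ℝ => Ei L e (Θ.symm (k, r + u0))) (𝓝[T] s) (𝓝 (Ei L e z)) :=
        ((Ei_cont L hzU).tendsto.comp hzc.tendsto).mono_left nhdsWithin_le_nhds
      refine tendsto_nhds_unique t1' (t2'.congr' ?_)
      filter_upwards [self_mem_nhdsWithin] with r hr
      rw [← hr.2.2.1, Ei_Le L hr.2.1]
    have hsrc : γ s ∈ e.source := by rw [hγs]; exact Ei_mem L hzU
    have hval : L (e (γ s)) = z := by rw [hγs, Le_Ei L hzU]
    refine ⟨hs, hsrc, hval, ?_⟩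
    refine typ_lim (l := 𝓝[T] s) (cont_gL L he (mem_Ue L hsrc))
      ((cur_deriv g L he hγ.geo hsrc).continuousAt.tendsto.mono_left nhdsWithin_le_nhds)
      ((cv_deriv g L he hγ.geo hsrc).continuousAt.tendsto.mono_left nhdsWithin_le_nhds) ?_
    filter_upwards [self_mem_nhdsWithin] with r hr
    exact hr.2.2.2
  exact fun s hs => (hsub hs).2

/-- a box around a point of the target -/
lemma exists_box {S : Set P} (hS : IsOpen S) {p : P} (hp : p ∈ S) :
    ∃ a : ℝ, 0 < a ∧ ∀ k s : ℝ, |k - p.1| < a → |s - p.2| < a → (k, s) ∈ S := by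
  obtain ⟨a, ha, hb⟩ := Metric.isOpen_iff.1 hS p hp
  refine ⟨a, ha, fun k s hk hs => hb ?_⟩
  rw [Metric.mem_ball, Prod.dist_eq, max_lt_iff, Real.dist_eq, Real.dist_eq]
  exact ⟨hk, hs⟩

/-- the special coordinates at a point of a normalised geodesic -/
lemma box_at (hi : g.IsIndefinite) (hcomp : IsNullComplete g) (haff : Aff g η)
    (he : e ∈ atlas E M) (hγ : UG g η u0 γ) (ht : γ t ∈ e.source) (hu : 0 < t + u0) :
    ∃ (ε : ℝ) (Θ : OpenPartialHomeomorph P P), (ε = 1 ∨ ε = -1) ∧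
      Bx ε (Ue L e) (gL g L e) (ηL η L e) (AL g L e) Θ ∧ L (e (γ t)) ∈ Θ.source ∧
      Typ ε (gL g L e (L (e (γ t)))) (cv L e γ t) ∧ (Θ (L (e (γ t)))).2 = t + u0 := by
  obtain ⟨ε, hε, hT⟩ : ∃ ε : ℝ, (ε = 1 ∨ ε = -1) ∧
      Typ ε (gL g L e (L (e (γ t)))) (cv L e γ t) := by
    rcases hγ.typ L hi he ht with h | h
    · exact ⟨1, Or.inl rfl, h⟩
    · exact ⟨-1, Or.inr rfl, h⟩
  have hε2 : ε ^ 2 = 1 := by rcases hε with rfl | rfl <;> norm_num
  have hun := hγ.un L he ht hu hT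
  obtain ⟨Θ, h1, h2⟩ := planar (dat g η L hi he) hε2 (geo_hyp L hi hcomp haff he hε)
    (mem_Ue L ht) hun
  refine ⟨ε, Θ, hε, h2, h1, hT, ?_⟩
  rw [(h2.vec _ h1 _ hun).2, hγ.val L he ht]

/-- two normalised geodesics with the same position and velocity agree nearby -/
lemma agree_near [T2Space M] (hi : g.IsIndefinite) (hcomp : IsNullComplete g) (haff : Aff g η)
    (he : e ∈ atlas E M) {γ' : ℝ → M} (hγ : UG g η u0 γ) (hγ' : UG g η u0 γ')
    (ht : γ t ∈ e.source) (hu : 0 < t + u0) (h1 : γ' t = γ t) (h2 : cv L e γ' t = cv L e γ t) :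
    γ =ᶠ[𝓝 t] γ' := by
  obtain ⟨ε, Θ, hε, hΘ, hs, hT, h3⟩ := box_at L hi hcomp haff he hγ ht hu
  obtain ⟨a, ha, hbox⟩ := exists_box Θ.open_target (Θ.map_source hs)
  set k := (Θ (L (e (γ t)))).1 with hk
  rw [h3] at hbox
  set b := min a (t + u0) with hb
  have hb0 : 0 < b := lt_min ha hu
  have hbox' : ∀ s ∈ Ioo (t - b) (t + b), (k, s + u0) ∈ Θ.target := by
    intro s hs
    refine hbox _ _ (by rw [sub_self, abs_zero]; exact ha) ?_
    have : s + u0 - (t + u0) = s - t := by ring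
    rw [this, abs_lt]
    have := min_le_left a (t + u0)
    constructor <;> linarith [hs.1, hs.2]
  have hmem : t ∈ Ioo (t - b) (t + b) := ⟨by linarith, by linarith⟩
  have hle : -u0 ≤ t - b := by
    have := min_le_right a (t + u0)
    linarith
  have hsym : L (e (γ t)) = Θ.symm (k, t + u0) := by
    rw [← h3, hk]
    exact (Θ.left_inv hs).symm
  have k1 := stay L hi he hε hΘ hγ hmem hle hbox' ht hsym hT
  have k2 := stay L hi he hε hΘ hγ' hmem hle hbox' (by rw [h1]; exact ht)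
    (by rw [h1]; exact hsym) (by rw [h1, h2]; exact hT)
  filter_upwards [Ioo_mem_nhds hmem.1 hmem.2] with s hs
  obtain ⟨a1, a2, -⟩ := k1 s hs
  obtain ⟨b1, b2, -⟩ := k2 s hs
  rw [← Ei_Le L a1, ← Ei_Le L b1, a2, b2]

/-- uniqueness -/
lemma agree [T2Space M] (hi : g.IsIndefinite) (hcomp : IsNullComplete g) (haff : Aff g η)
    (he : e ∈ atlas E M) {γ' : ℝ → M} (hγ : UG g η u0 γ) (hγ' : UG g η u0 γ')
    (ht : γ t ∈ e.source) (hu : 0 < t + u0) (h1 : γ' t = γ t) (h2 : cv L e γ' t = cv L e γ t)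
    {s : ℝ} (hs : 0 < s + u0) : γ s = γ' s := by
  set T : Set ℝ := {s | -u0 < s ∧ γ =ᶠ[𝓝 s] γ'} with hT
  have hopen : IsOpen T := by
    rw [isOpen_iff_mem_nhds]
    rintro s ⟨s1, s2⟩
    filter_upwards [Ioi_mem_nhds s1, s2.eventually_nhds] with r r1 r2
    exact ⟨r1, r2⟩
  have hsub : Ioi (-u0) ⊆ T := by
    refine isPreconnected_Ioi.subset_of_closure_inter_subset hopen
      ⟨t, by simp only [mem_Ioi]; linarith, by linarith,
        agree_near L hi hcomp haff he hγ hγ' ht hu h1 h2⟩ ?_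
    rintro r ⟨hcl, hr⟩
    haveI : (𝓝[T] r).NeBot := mem_closure_iff_nhdsWithin_neBot.1 hcl
    have hpos : 0 < r + u0 := by simp only [mem_Ioi] at hr; linarith
    have p1 : γ' r = γ r := by
      have t1' : Tendsto γ (𝓝[T] r) (𝓝 (γ r)) := (geo_cont hγ.geo r).tendsto.mono_left
        nhdsWithin_le_nhds
      have t2' : Tendsto γ' (𝓝[T] r) (𝓝 (γ' r)) := (geo_cont hγ'.geo r).tendsto.mono_left
        nhdsWithin_le_nhds
      refine tendsto_nhds_unique (t2'.congr' ?_) t1'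
      filter_upwards [self_mem_nhdsWithin] with x hx
      exact (hx.2.self_of_nhds).symm
    have he' := chart_mem_atlas E (γ r)
    have hsr := mem_chart_source E (γ r)
    have hsr' : γ' r ∈ (chartAt E (γ r)).source := by rw [p1]; exact hsr
    have p2 : cv L (chartAt E (γ r)) γ' r = cv L (chartAt E (γ r)) γ r := by
      have t1' : Tendsto (cv L (chartAt E (γ r)) γ) (𝓝[T] r) (𝓝 (cv L (chartAt E (γ r)) γ r)) :=
        (cv_deriv g L he' hγ.geo hsr).continuousAt.tendsto.mono_left nhdsWithin_le_nhds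
      have t2' : Tendsto (cv L (chartAt E (γ r)) γ') (𝓝[T] r)
          (𝓝 (cv L (chartAt E (γ r)) γ' r)) :=
        (cv_deriv g L he' hγ'.geo hsr').continuousAt.tendsto.mono_left nhdsWithin_le_nhds
      refine tendsto_nhds_unique t2' (t1'.congr' ?_)
      filter_upwards [self_mem_nhdsWithin] with x hx
      unfold cv
      have : (fun r' => chartAt E (γ r) (γ r')) =ᶠ[𝓝 x] fun r' => chartAt E (γ r) (γ' r') := by
        filter_upwards [hx.2] with r' hr'
        rw [hr']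
      rw [this.deriv_eq]
    exact ⟨hr, agree_near L hi hcomp haff he' hγ hγ' hsr hpos p1 p2⟩
  exact (hsub (show s ∈ Ioi (-u0) by simp only [mem_Ioi]; linarith)).2.self_of_nhds

end Pool.Agent.KS6_93.Lin
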