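import Pool.Agent.KS6_93.Lin.P7

/-!
# Change of charts; regular maps of the plane to the surface
-/

set_option autoImplicit false
set_option maxSynthPendingDepth 3
set_option linter.unusedSectionVars false

namespace Pool.Agent.KS6_93.Lin

open Set Filter Topology
open scoped ContDiff Manifold
open Pool.Agent.Helper831

lemma dg_pull {G G' : Bil} {T : P →L[ℝ] P} (hs : ∀ v w, G' v w = G' w v)
    (h : ∀ v w, G v w = G' (T v) (T w)) : dg G = T.det ^ 2 * dg G' := by
  unfold dg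
  rw [h e1 e2, h e1 e1, h e2 e2, det_P, bil_app G' (T e1) (T e2), bil_app G' (T e1) (T e1),
    bil_app G' (T e2) (T e2), hs e2 e1]
  ring

lemma rd_pull {G G' : Bil} {T : P →L[ℝ] P} (hs : ∀ v w, G' v w = G' w v)
    (h : ∀ v w, G v w = G' (T v) (T w)) : rd G = |T.det| * rd G' := by
  unfold rd
  rw [dg_pull hs h, Real.sqrt_mul (sq_nonneg _), Real.sqrt_sq_eq_abs]

lemma polar {G G' : Bil} {T : P →L[ℝ] P} (hs : ∀ v w, G v w = G w v)
    (hs' : ∀ v w, G' v w = G' w v) (h : ∀ v, G v v = G' (T v) (T v)) (v w : P) :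
    G v w = G' (T v) (T w) := by
  have h1 := h (v + w)
  simp only [map_add, add_apply] at h1
  rw [h v, h w, hs w v, hs' (T w) (T v)] at h1
  linarith

lemma det_comp (A B : P →L[ℝ] P) : (A.comp B).det = A.det * B.det := by
  have h : (A.comp B).det = LinearMap.det ((A : P →ₗ[ℝ] P).comp (B : P →ₗ[ℝ] P)) := rfl
  rw [h, LinearMap.det_comp]

variable {E : Type*} [NormedAddCommGroup E] [NormedSpace ℝ E] [FiniteDimensional ℝ E]
  {M : Type*} [TopologicalSpace M] [ChartedSpace E M] [IsManifold 𝓘(ℝ, E) ∞ M]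
  (g : SemiRiemannianMetric E M) (L : E ≃L[ℝ] P)
  {e e' : OpenPartialHomeomorph M E}

lemma gL_symm (e : OpenPartialHomeomorph M E) (y v w : P) :
    gL g L e y v w = gL g L e y w v := Gm_symm g e _ _ _

/-- the change of charts -/
noncomputable def tau (e e' : OpenPartialHomeomorph M E) (y : P) : P := L (e' (Ei L e y))

lemma tau_smooth (he : e ∈ atlas E M) (he' : e' ∈ atlas E M) {y : P} (hy : y ∈ Ue L e)
    (hy' : Ei L e y ∈ e'.source) : ContDiffAt ℝ ∞ (tau L e e') y := by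
  have h1 : ContMDiffAt 𝓘(ℝ, E) 𝓘(ℝ, E) ∞ e' (Ei L e y) :=
    contMDiffAt_of_mem_maximalAtlas (IsManifold.subset_maximalAtlas he') hy'
  have h2 : ContMDiffAt 𝓘(ℝ, E) 𝓘(ℝ, E) ∞ e.symm (L.symm y) :=
    (contMDiffOn_symm_of_mem_maximalAtlas (IsManifold.subset_maximalAtlas he)).contMDiffAt
      (e.open_target.mem_nhds hy)
  have h3 : ContMDiffAt 𝓘(ℝ, E) 𝓘(ℝ, E) ∞ (fun x => e' (e.symm x)) (L.symm y) :=
    ContMDiffAt.comp (L.symm y) h1 h2
  have h4 : ContDiffAt ℝ ∞ (fun x => e' (e.symm x)) (L.symm y) := h3.contDiffAt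
  have h5 : ContDiffAt ℝ ∞ (fun z : P => e' (e.symm (L.symm z))) y :=
    ContDiffAt.comp (g := fun x => e' (e.symm x)) (f := fun z : P => L.symm z) y h4
      L.symm.contDiff.contDiffAt
  exact L.contDiff.contDiffAt.comp y h5

lemma quad_tau (he : e ∈ atlas E M) (he' : e' ∈ atlas E M) {y : P} (hy : y ∈ Ue L e)
    (hy' : Ei L e y ∈ e'.source) (v : P) : gL g L e y v v =
      gL g L e' (tau L e e' y) (fderiv ℝ (tau L e e') y v) (fderiv ℝ (tau L e e') y v) := by
  set γ : ℝ → M := fun t => Ei L e (y + t • v) with hγ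
  have hγ0 : γ 0 = Ei L e y := by simp [hγ]
  have hline : HasDerivAt (fun t : ℝ => y + t • v) v 0 := by
    simpa using ((hasDerivAt_id (0 : ℝ)).smul_const v).const_add y
  have hcs : ContMDiffAt 𝓘(ℝ, E) 𝓘(ℝ, E) ∞ e.symm (L.symm y) :=
    (contMDiffOn_symm_of_mem_maximalAtlas (IsManifold.subset_maximalAtlas he)).contMDiffAt
      (e.open_target.mem_nhds hy)
  have hmd : MDifferentiableAt 𝓘(ℝ, ℝ) 𝓘(ℝ, E) γ 0 := by
    have h1 : MDifferentiableAt 𝓘(ℝ, E) 𝓘(ℝ, E) e.symm (L.symm (y + (0 : ℝ) • v)) := by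
      rw [zero_smul, add_zero]
      exact hcs.mdifferentiableAt (by simp)
    have h2 : MDifferentiableAt 𝓘(ℝ, ℝ) 𝓘(ℝ, E) (fun t : ℝ => L.symm (y + t • v)) 0 := by
      have : DifferentiableAt ℝ (fun t : ℝ => L.symm (y + t • v)) 0 :=
        L.symm.differentiableAt.comp (0 : ℝ) hline.differentiableAt
      exact this.mdifferentiableAt
    exact MDifferentiableAt.comp (0 : ℝ) h1 h2
  have hs : γ 0 ∈ e.source := by rw [hγ0]; exact Ei_mem L hy
  have hs' : γ 0 ∈ e'.source := by rw [hγ0]; exact hy'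
  have a1 := form_vel g L he hmd hs
  have a2 := form_vel g L he' hmd hs'
  have b1 : L (e (γ 0)) = y := by rw [hγ0, Le_Ei L hy]
  have b2 : L (e' (γ 0)) = tau L e e' y := by rw [hγ0]; rfl
  have hev : ∀ᶠ t in 𝓝 (0 : ℝ), y + t • v ∈ Ue L e := by
    have : ContinuousAt (fun t : ℝ => y + t • v) 0 := hline.continuousAt
    refine this.eventually_mem ?_
    rw [zero_smul, add_zero]
    exact (Ue_open L e).mem_nhds hy
  have c1 : cv L e γ 0 = v := by
    unfold cv
    have h1 : (fun r => e (γ r)) =ᶠ[𝓝 0] fun r => L.symm (y + r • v) := by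
      filter_upwards [hev] with r hr
      have := Le_Ei L hr
      rw [hγ]
      simp only
      rw [← this, L.symm_apply_apply, Ei_Le L (Ei_mem L hr)]
    rw [h1.deriv_eq]
    have h2 : HasDerivAt (fun r : ℝ => L.symm (y + r • v)) (L.symm v) 0 :=
      L.symm.hasFDerivAt.comp_hasDerivAt 0 hline
    rw [h2.deriv, L.apply_symm_apply]
  have c2 : cv L e' γ 0 = fderiv ℝ (tau L e e') y v := by
    have h1 : HasFDerivAt (tau L e e') (fderiv ℝ (tau L e e') y) (y + (0 : ℝ) • v) := by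
      rw [zero_smul, add_zero]
      exact ((tau_smooth L he he' hy hy').differentiableAt (by simp)).hasFDerivAt
    have h2 : HasDerivAt (fun r : ℝ => tau L e e' (y + r • v)) (fderiv ℝ (tau L e e') y v) 0 :=
      HasFDerivAt.comp_hasDerivAt (l := tau L e e') (0 : ℝ) h1 hline
    have h3 : HasDerivAt (fun r : ℝ => L.symm (tau L e e' (y + r • v)))
      (L.symm (fderiv ℝ (tau L e e') y v)) 0 := L.symm.hasFDerivAt.comp_hasDerivAt 0 h2
    have h4 : (fun r : ℝ => L.symm (tau L e e' (y + r • v))) = fun r => e' (γ r) := by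
      funext r
      unfold tau
      rw [L.symm_apply_apply]
    rw [h4] at h3
    unfold cv
    rw [h3.deriv, L.apply_symm_apply]
  rw [b1, c1] at a1
  rw [b2, c2] at a2
  rw [← a1, ← a2]

lemma rd_tau (he : e ∈ atlas E M) (he' : e' ∈ atlas E M) {y : P} (hy : y ∈ Ue L e)
    (hy' : Ei L e y ∈ e'.source) : rd (gL g L e y) =
      |(fderiv ℝ (tau L e e') y).det| * rd (gL g L e' (tau L e e' y)) :=
  rd_pull (gL_symm g L e' _) (polar (gL_symm g L e y) (gL_symm g L e' _)
    fun v => quad_tau g L he he' hy hy' v)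

/-- `Ψ` is a local diffeomorphism near `z` which preserves the area -/
def Rg (Ψ : P → M) (e : OpenPartialHomeomorph M E) (z : P) : Prop :=
  Ψ z ∈ e.source ∧ ContinuousAt Ψ z ∧ ContDiffAt ℝ 1 (fun z => L (e (Ψ z))) z ∧
    ∀ᶠ z' in 𝓝 z, |(fderiv ℝ (fun z => L (e (Ψ z))) z').det| *
      rd (gL g L e (L (e (Ψ z')))) = 1

variable {g L} in
lemma Rg.change {Ψ : P → M} {z : P} (he : e ∈ atlas E M) (he' : e' ∈ atlas E M)
    (h : Rg g L Ψ e z) (hz : Ψ z ∈ e'.source) : Rg g L Ψ e' z := by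
  obtain ⟨h1, h2, h3, h4⟩ := h
  set F : P → P := fun z => L (e (Ψ z)) with hF
  set F' : P → P := fun z => L (e' (Ψ z)) with hF'
  have hzU : F z ∈ Ue L e := by
    unfold Ue
    rw [mem_preimage, hF, L.symm_apply_apply]
    exact e.map_source h1
  have hE : Ei L e (F z) = Ψ z := Ei_Le L h1
  have ht : ContDiffAt ℝ ∞ (tau L e e') (F z) := tau_smooth L he he' hzU (by rw [hE]; exact hz)
  have hev : ∀ᶠ z' in 𝓝 z, Ψ z' ∈ e.source ∧ Ψ z' ∈ e'.source :=
    (h2.eventually_mem (e.open_source.mem_nhds h1)).and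
      (h2.eventually_mem (e'.open_source.mem_nhds hz))
  have heq : F' =ᶠ[𝓝 z] fun z => tau L e e' (F z) := by
    filter_upwards [hev] with z' hz'
    simp only [hF, hF', tau]
    rw [Ei_Le L hz'.1]
  refine ⟨hz, h2, ?_, ?_⟩
  · exact ((ht.of_le (by simp)).comp z h3).congr_of_eventuallyEq heq
  · have h5 : ∀ᶠ z' in 𝓝 z, ContDiffAt ℝ 1 F z' := h3.eventually (by simp)
    filter_upwards [h4, h5, heq.eventually_nhds, hev] with z' k4 k5 k6 k7
    have hzU' : F z' ∈ Ue L e := by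
      unfold Ue
      rw [mem_preimage, hF, L.symm_apply_apply]
      exact e.map_source k7.1
    have hE' : Ei L e (F z') = Ψ z' := Ei_Le L k7.1
    have hts : Ei L e (F z') ∈ e'.source := by rw [hE']; exact k7.2
    have d1 : HasFDerivAt (tau L e e') (fderiv ℝ (tau L e e') (F z')) (F z') :=
      ((tau_smooth L he he' hzU' hts).differentiableAt (by simp)).hasFDerivAt
    have d2 : HasFDerivAt F (fderiv ℝ F z') z' := (k5.differentiableAt (by simp)).hasFDerivAt
    have d3 : fderiv ℝ F' z' = (fderiv ℝ (tau L e e') (F z')).comp (fderiv ℝ F z') := by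
      rw [Filter.EventuallyEq.fderiv_eq k6]
      exact (d1.comp z' d2).fderiv
    have d4 := rd_tau g L he he' hzU' hts
    have d5 : tau L e e' (F z') = L (e' (Ψ z')) := by unfold tau; rw [hE']
    rw [d5] at d4
    change |(fderiv ℝ F' z').det| * rd (gL g L e' (L (e' (Ψ z')))) = 1
    rw [d3, det_comp, abs_mul, mul_comm |(fderiv ℝ (tau L e e') (F z')).det|, mul_assoc, ← d4]
    exact k4

end Pool.Agent.KS6_93.Lin
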