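import Pool.Agent.KS6_93.Lin.P8

/-!
# Families of normalised geodesics are area preserving
-/

set_option autoImplicit false
set_option maxSynthPendingDepth 3
set_option linter.unusedSectionVars false

namespace Pool.Agent.KS6_93.Lin

open Set Filter Topology
open scoped ContDiff Manifold
open Pool.Agent.Helper831

variable {E : Type*} [NormedAddCommGroup E] [NormedSpace ℝ E] [FiniteDimensional ℝ E]
  {M : Type*} [TopologicalSpace M] [ChartedSpace E M] [IsManifold 𝓘(ℝ, E) ∞ M]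
  {g : SemiRiemannianMetric E M} {η : OneForm E M} (L : E ≃L[ℝ] P)
  {e : OpenPartialHomeomorph M E} {u0 ε : ℝ}

lemma kappa_deriv {k : ℝ → ℝ} {z : P} (hk : DifferentiableAt ℝ k z.1) :
    HasFDerivAt (fun z : P => ((k z.1, z.2 + u0) : P))
      (((ContinuousLinearMap.smulRight (1 : ℝ →L[ℝ] ℝ) (deriv k z.1)).comp
        (ContinuousLinearMap.fst ℝ ℝ ℝ)).prod (ContinuousLinearMap.snd ℝ ℝ ℝ)) z := by
  have h1 : HasFDerivAt k (ContinuousLinearMap.smulRight (1 : ℝ →L[ℝ] ℝ) (deriv k z.1)) z.1 :=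
    hk.hasDerivAt.hasFDerivAt
  have h2 : HasFDerivAt (fun z : P => k z.1) _ z := h1.comp z hasFDerivAt_fst
  exact h2.prodMk (hasFDerivAt_snd.add_const u0)

lemma kappa_det {k' : ℝ} : (((ContinuousLinearMap.smulRight (1 : ℝ →L[ℝ] ℝ) k').comp
        (ContinuousLinearMap.fst ℝ ℝ ℝ)).prod (ContinuousLinearMap.snd ℝ ℝ ℝ) :
          P →L[ℝ] P).det = k' := by
  rw [det_P]
  simp [e1, e2]

variable {γ : ℝ → ℝ → M}

/-- the determinant in terms of the parameter change -/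
lemma det_formula (he : e ∈ atlas E M) {Θ : OpenPartialHomeomorph P P}
    (hΘ : Bx ε (Ue L e) (gL g L e) (ηL η L e) (AL g L e) Θ) {k : ℝ → ℝ} {z : P}
    {F : P → P} (hF : DifferentiableAt ℝ F z) (hk : DifferentiableAt ℝ k z.1)
    (hev : ∀ᶠ z' in 𝓝 z, F z' ∈ Θ.source ∧ Θ (F z') = (k z'.1, z'.2 + u0)) :
    |(fderiv ℝ F z).det| * rd (gL g L e (F z)) = |deriv k z.1| := by
  have hs := hev.self_of_nhds.1
  have d1 : HasFDerivAt Θ (fderiv ℝ Θ (F z)) (F z) :=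
    ((hΘ.cd _ hs).differentiableAt (by simp)).hasFDerivAt
  have d2 := d1.comp z hF.hasFDerivAt
  have d3 : HasFDerivAt (fun z => Θ (F z)) _ z :=
    (kappa_deriv (u0 := u0) hk).congr_of_eventuallyEq (by
      filter_upwards [hev] with z' hz'
      exact hz'.2)
  have d4 := congrArg ContinuousLinearMap.det (d2.unique d3)
  rw [det_comp, kappa_det] at d4
  rw [← d4, abs_mul, hΘ.det _ hs, mul_comm]

/-- regularity from the formula in the special coordinates -/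
lemma reg_of (he : e ∈ atlas E M) {Θ : OpenPartialHomeomorph P P}
    (hΘ : Bx ε (Ue L e) (gL g L e) (ηL η L e) (AL g L e) Θ) (hg : ∀ y ∈ Ue L e, Lor (gL g L e y))
    {a b h0 t2 : ℝ} (ht2 : t2 ∈ Ioo a b) {k : ℝ → ℝ} (hk : ContDiffAt ℝ 1 k h0)
    (hk1 : ∀ᶠ h in 𝓝 h0, |deriv k h| = 1)
    (hev : ∀ᶠ h in 𝓝 h0, ∀ s ∈ Ioo a b, (k h, s + u0) ∈ Θ.target ∧ γ h s ∈ e.source ∧
      L (e (γ h s)) = Θ.symm (k h, s + u0)) :
    Rg g L (fun z => γ z.1 z.2) e (h0, t2) := by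
  have hz : ∀ᶠ z : P in 𝓝 ((h0, t2) : P), z.2 ∈ Ioo a b ∧ (k z.1, z.2 + u0) ∈ Θ.target ∧
      γ z.1 z.2 ∈ e.source ∧ L (e (γ z.1 z.2)) = Θ.symm (k z.1, z.2 + u0) := by
    rw [nhds_prod_eq]
    filter_upwards [prod_mem_prod hev (Ioo_mem_nhds ht2.1 ht2.2)] with z hz
    exact ⟨hz.2, hz.1 z.2 hz.2⟩
  obtain ⟨-, z1, z2, z3⟩ := hz.self_of_nhds
  simp only at z1 z2 z3
  have hkc : ContDiffAt ℝ 1 (fun z : P => ((k z.1, z.2 + u0) : P)) (h0, t2) := by
    have h1 : ContDiffAt ℝ 1 (fun z : P => k z.1) (h0, t2) :=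
      ContDiffAt.comp (g := k) (f := fun z : P => z.1) (h0, t2) hk contDiffAt_fst
    exact h1.prodMk (contDiffAt_snd.add contDiffAt_const)
  have hsrc : Θ.symm (k h0, t2 + u0) ∈ Θ.source := Θ.map_target z1
  have hsymm : ContDiffAt ℝ 1 Θ.symm (k h0, t2 + u0) := by
    have hne : (fderiv ℝ Θ (Θ.symm (k h0, t2 + u0))).det ≠ 0 := by
      have h1 := hΘ.det _ hsrc
      have h2 := (hg _ (hΘ.sub hsrc)).rd_pos
      intro h3
      rw [h3, abs_zero] at h1
      linarith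
    refine Θ.contDiffAt_symm z1
      (f₀' := (fderiv ℝ Θ (Θ.symm (k h0, t2 + u0))).toContinuousLinearEquivOfDetNeZero hne)
      ?_ (hΘ.cd _ hsrc)
    exact ((hΘ.cd _ hsrc).differentiableAt (by simp)).hasFDerivAt
  have hFc : ContDiffAt ℝ 1 (fun z : P => L (e (γ z.1 z.2))) (h0, t2) := by
    have h1 : ContDiffAt ℝ 1 (fun z : P => Θ.symm (k z.1, z.2 + u0)) (h0, t2) :=
      ContDiffAt.comp (g := Θ.symm) (f := fun z : P => ((k z.1, z.2 + u0) : P)) (h0, t2)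
        hsymm hkc
    refine h1.congr_of_eventuallyEq ?_
    filter_upwards [hz] with z hz
    exact hz.2.2.2
  refine ⟨z2, ?_, hFc, ?_⟩
  · have hU : L (e (γ h0 t2)) ∈ Ue L e := by rw [z3]; exact hΘ.sub hsrc
    have h1 : ContinuousAt (fun z : P => Ei L e (L (e (γ z.1 z.2)))) (h0, t2) :=
      ContinuousAt.comp (g := Ei L e) (f := fun z : P => L (e (γ z.1 z.2))) (Ei_cont L hU)
        hFc.continuousAt
    refine h1.congr ?_
    filter_upwards [hz] with z hz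
    exact Ei_Le L hz.2.2.1
  · have hk1' : ∀ᶠ z : P in 𝓝 ((h0, t2) : P), |deriv k z.1| = 1 ∧ DifferentiableAt ℝ k z.1 := by
      have : Tendsto (fun z : P => z.1) (𝓝 ((h0, t2) : P)) (𝓝 h0) := continuousAt_fst
      exact this.eventually (hk1.and ((hk.eventually (by simp)).mono
        fun h hh => hh.differentiableAt (by simp)))
    filter_upwards [hz.eventually_nhds, hFc.eventually (by simp), hk1'] with z w1 w2 w3
    have := det_formula (u0 := u0) L he hΘ (k := k) (z := z) (w2.differentiableAt (by simp)) w3.2 (by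
      filter_upwards [w1] with z' hz'
      refine ⟨?_, ?_⟩
      · rw [hz'.2.2.2]; exact Θ.map_target hz'.2.1
      · rw [hz'.2.2.2, Θ.right_inv hz'.2.1])
    rw [w3.1] at this
    exact this

/-- regularity propagates -/
lemma reg_prop [T2Space M] (hi : g.IsIndefinite) (hcomp : IsNullComplete g) (haff : Aff g η)
    {a0 b0 h0 : ℝ} (hJ : h0 ∈ Ioo a0 b0) (hγ : ∀ h ∈ Ioo a0 b0, UG g η u0 (γ h)) {t : ℝ}
    (ht : 0 < t + u0) : ∃ δ > 0, ∀ t1 ∈ Ioo (t - δ) (t + δ), ∀ t2 ∈ Ioo (t - δ) (t + δ),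
      (∃ e ∈ atlas E M, Rg g L (fun z => γ z.1 z.2) e (h0, t1)) →
      ∃ e ∈ atlas E M, Rg g L (fun z => γ z.1 z.2) e (h0, t2) := by
  have he := chart_mem_atlas E (γ h0 t)
  have hts := mem_chart_source E (γ h0 t)
  set e := chartAt E (γ h0 t) with hedef
  obtain ⟨ε, Θ, hε, hΘ, hs, hT, h3⟩ := box_at L hi hcomp haff he (hγ h0 hJ) hts ht
  obtain ⟨a, ha, hbox⟩ := exists_box Θ.open_target (Θ.map_source hs)
  set k0 := (Θ (L (e (γ h0 t)))).1 with hk0
  rw [h3] at hbox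
  set b := min a (t + u0) with hb
  have hb0 : 0 < b := lt_min ha ht
  have hle : -u0 ≤ t - b := by
    have := min_le_right a (t + u0)
    linarith
  have hbox' : ∀ k : ℝ, |k - k0| < a → ∀ s ∈ Ioo (t - b) (t + b), (k, s + u0) ∈ Θ.target := by
    intro k hk s hs
    refine hbox _ _ hk ?_
    have : s + u0 - (t + u0) = s - t := by ring
    rw [this, abs_lt]
    have := min_le_left a (t + u0)
    constructor <;> linarith [hs.1, hs.2]
  have hsym : L (e (γ h0 t)) = Θ.symm (k0, t + u0) := by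
    rw [← h3, hk0]
    exact (Θ.left_inv hs).symm
  have hst := stay L hi he hε hΘ (hγ h0 hJ) (show t ∈ Ioo (t - b) (t + b) from
    ⟨by linarith, by linarith⟩) hle (hbox' k0 (by rw [sub_self, abs_zero]; exact ha)) hts hsym hT
  refine ⟨b, hb0, fun t1 ht1 t2 ht2 => ?_⟩
  rintro ⟨e₁, he₁, hR⟩
  obtain ⟨q1, q2, q3⟩ := hst t1 ht1
  have hR' := hR.change he₁ he q1
  obtain ⟨-, r2, r3, r4⟩ := hR'
  set F : P → P := fun z => L (e (γ z.1 z.2)) with hF
  have hpos1 : 0 < t1 + u0 := by linarith [ht1.1]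
  have hk0t : (k0, t1 + u0) ∈ Θ.target :=
    hbox' k0 (by rw [sub_self, abs_zero]; exact ha) t1 ht1
  have hFs : F (h0, t1) ∈ Θ.source := by
    change L (e (γ h0 t1)) ∈ Θ.source
    rw [q2]; exact Θ.map_target hk0t
  -- restriction to the line `t = t1`
  have hline : ContDiffAt ℝ 1 (fun h : ℝ => ((h, t1) : P)) h0 :=
    contDiffAt_id.prodMk contDiffAt_const
  have hlt : Tendsto (fun h : ℝ => ((h, t1) : P)) (𝓝 h0) (𝓝 ((h0, t1) : P)) :=
    hline.continuousAt.tendsto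
  have hFl : ContDiffAt ℝ 1 (fun h : ℝ => F (h, t1)) h0 :=
    ContDiffAt.comp (g := F) (f := fun h : ℝ => ((h, t1) : P)) h0 r3 hline
  set k : ℝ → ℝ := fun h => (Θ (F (h, t1))).1 with hk
  have hkc : ContDiffAt ℝ 1 k h0 := by
    have h1 : ContDiffAt ℝ 1 (fun h : ℝ => Θ (F (h, t1))) h0 :=
      ContDiffAt.comp (g := Θ) (f := fun h : ℝ => F (h, t1)) h0 (hΘ.cd _ hFs) hFl
    exact h1.fst
  have hkk : k h0 = k0 := by
    have : F (h0, t1) = Θ.symm (k0, t1 + u0) := q2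
    rw [hk]
    simp only
    rw [this, Θ.right_inv hk0t]
  -- the type
  have hcvl : ∀ h s : ℝ, h ∈ Ioo a0 b0 → γ h s ∈ e.source → DifferentiableAt ℝ F (h, s) →
      cv L e (γ h) s = fderiv ℝ F (h, s) (0, 1) := by
    intro h s hh hs hd
    have h1 : HasDerivAt (fun r => L (e (γ h r))) (cv L e (γ h) s) s :=
      cur_deriv g L he (hγ h hh).geo hs
    have h2 : HasDerivAt (fun r : ℝ => ((h, r) : P)) ((0, 1) : P) s :=
      (hasDerivAt_const s h).prodMk (hasDerivAt_id s)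
    have h3 : HasDerivAt (fun r : ℝ => F (h, r)) (fderiv ℝ F (h, s) (0, 1)) s :=
      HasFDerivAt.comp_hasDerivAt (l := F) s hd.hasFDerivAt h2
    exact h1.unique h3
  have hJn : ∀ᶠ h in 𝓝 h0, h ∈ Ioo a0 b0 := Ioo_mem_nhds hJ.1 hJ.2
  have hd1 : ∀ᶠ h in 𝓝 h0, ContDiffAt ℝ 1 F (h, t1) := hlt.eventually (r3.eventually (by simp))
  have hsr : ∀ᶠ h in 𝓝 h0, γ h t1 ∈ e.source :=
    hlt.eventually (r2.eventually_mem (e.open_source.mem_nhds q1))
  have htyp : ∀ᶠ h in 𝓝 h0, Typ ε (gL g L e (F (h, t1))) (cv L e (γ h) t1) := by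
    have c1 : Tendsto (fun h : ℝ => F (h, t1)) (𝓝 h0) (𝓝 (F (h0, t1))) :=
      hFl.continuousAt.tendsto
    have c2 : Tendsto (fun h : ℝ => cv L e (γ h) t1) (𝓝 h0) (𝓝 (cv L e (γ h0) t1)) := by
      have hfc : ContinuousAt (fderiv ℝ F) (h0, t1) := by
        have h1 : ContDiffAt ℝ 0 (fderiv ℝ F) (h0, t1) := r3.fderiv_right (by simp)
        exact h1.continuousAt
      have h2 : Tendsto (fun h : ℝ => fderiv ℝ F (h, t1) (0, 1)) (𝓝 h0)
          (𝓝 (fderiv ℝ F (h0, t1) (0, 1))) :=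
        tendsto_clm (hfc.tendsto.comp hlt) tendsto_const_nhds
      rw [← hcvl h0 t1 hJ q1 (r3.differentiableAt (by simp))] at h2
      refine h2.congr' ?_
      filter_upwards [hJn, hd1, hsr] with h a1 a2 a3
      exact (hcvl h t1 a1 a3 (a2.differentiableAt (by simp))).symm
    have hU : F (h0, t1) ∈ Ue L e := hΘ.sub hFs
    refine typ_ev (G := gL g L e) (c := fun h => F (h, t1)) (cont_gL L he hU)
      ((dat g η L hi he).lor _ hU) c1 c2 hε q3 ((hγ h0 hJ).ne L he q1 hpos1) ?_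
    filter_upwards [hJn, hsr] with h a1 a2
    exact (hγ h a1).typ L hi he a2
  have hFsrc : ∀ᶠ h in 𝓝 h0, F (h, t1) ∈ Θ.source :=
    hFl.continuousAt.eventually_mem (Θ.open_source.mem_nhds hFs)
  have hval : ∀ᶠ h in 𝓝 h0, h ∈ Ioo a0 b0 ∧ γ h t1 ∈ e.source ∧ F (h, t1) ∈ Θ.source ∧
      Θ (F (h, t1)) = (k h, t1 + u0) ∧ Typ ε (gL g L e (F (h, t1))) (cv L e (γ h) t1) := by
    filter_upwards [hJn, hsr, hFsrc, htyp] with h a1 a2 a3 a4
    refine ⟨a1, a2, a3, ?_, a4⟩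
    have := (hΘ.vec _ a3 _ ((hγ h a1).un L he a2 hpos1 a4)).2
    rw [(hγ h a1).val L he a2] at this
    exact Prod.ext rfl this
  have hknear : ∀ᶠ h in 𝓝 h0, |k h - k0| < a := by
    have h1 : Tendsto (fun h => |k h - k0|) (𝓝 h0) (𝓝 |k h0 - k0|) :=
      (hkc.continuousAt.tendsto.sub tendsto_const_nhds).abs
    rw [hkk, sub_self, abs_zero] at h1
    exact h1.eventually (gt_mem_nhds ha)
  have hmain : ∀ᶠ h in 𝓝 h0, ∀ s ∈ Ioo (t - b) (t + b), (k h, s + u0) ∈ Θ.target ∧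
      γ h s ∈ e.source ∧ L (e (γ h s)) = Θ.symm (k h, s + u0) := by
    filter_upwards [hval, hknear] with h a1 a2 s hs
    obtain ⟨b1, b2, b3, b4, b5⟩ := a1
    have hb := hbox' (k h) a2
    have hsy : L (e (γ h t1)) = Θ.symm (k h, t1 + u0) := by
      rw [← b4]
      exact (Θ.left_inv b3).symm
    have := stay L hi he hε hΘ (hγ h b1) ht1 hle hb b2 hsy b5 s hs
    exact ⟨hb s hs, this.1, this.2.1⟩
  have hlor := (dat g η L hi he).lor
  have hk1 : ∀ᶠ h in 𝓝 h0, |deriv k h| = 1 := by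
    have hev2 : ∀ᶠ z : P in 𝓝 ((h0, t1) : P), F z ∈ Θ.source ∧ Θ (F z) = (k z.1, z.2 + u0) := by
      rw [nhds_prod_eq]
      filter_upwards [prod_mem_prod hmain (Ioo_mem_nhds ht1.1 ht1.2)] with z hz
      have := hz.1 z.2 hz.2
      have h5 : F z = Θ.symm (k z.1, z.2 + u0) := this.2.2
      rw [h5]
      exact ⟨Θ.map_target this.1, Θ.right_inv this.1⟩
    filter_upwards [hlt.eventually r4, hlt.eventually hev2.eventually_nhds, hd1,
      (hkc.eventually (by simp)).mono fun h hh => hh.differentiableAt (by simp)] with h a1 a2 a3 a4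
    have h6 := det_formula (u0 := u0) L he hΘ (k := k) (z := (h, t1))
      (a3.differentiableAt (by simp)) a4 a2
    rw [← h6]
    exact a1
  exact ⟨e, he, reg_of L he hΘ hlor ht2 hkc hk1 hmain⟩

/-- all points of the family are regular -/
lemma reg_all [T2Space M] (hi : g.IsIndefinite) (hcomp : IsNullComplete g) (haff : Aff g η)
    {a0 b0 h0 : ℝ} (hJ : h0 ∈ Ioo a0 b0) (hγ : ∀ h ∈ Ioo a0 b0, UG g η u0 (γ h)) {t0 : ℝ}
    (ht0 : 0 < t0 + u0) (hb : ∃ e ∈ atlas E M, Rg g L (fun z => γ z.1 z.2) e (h0, t0))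
    {t : ℝ} (ht : 0 < t + u0) : ∃ e ∈ atlas E M, Rg g L (fun z => γ z.1 z.2) e (h0, t) := by
  set T : Set ℝ := {s | -u0 < s ∧ ∃ e ∈ atlas E M, Rg g L (fun z => γ z.1 z.2) e (h0, s)} with hT
  have hopen : IsOpen T := by
    rw [isOpen_iff_mem_nhds]
    rintro s ⟨s1, s2⟩
    obtain ⟨δ, hδ, hp⟩ := reg_prop L hi hcomp haff hJ hγ (t := s) (by linarith)
    filter_upwards [Ioi_mem_nhds s1, Ioo_mem_nhds (show s - δ < s by linarith)
      (show s < s + δ by linarith)] with r r1 r2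
    exact ⟨r1, hp s ⟨by linarith, by linarith⟩ r r2 s2⟩
  have hsub : Ioi (-u0) ⊆ T := by
    refine isPreconnected_Ioi.subset_of_closure_inter_subset hopen
      ⟨t0, by simp only [mem_Ioi]; linarith, by linarith, hb⟩ ?_
    rintro r ⟨hcl, hr⟩
    have hr' : -u0 < r := hr
    obtain ⟨δ, hδ, hp⟩ := reg_prop L hi hcomp haff hJ hγ (t := r) (by linarith)
    obtain ⟨s, hs1, hs2⟩ := mem_closure_iff.1 hcl (Ioo (r - δ) (r + δ)) isOpen_Ioo
      ⟨by linarith, by linarith⟩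
    exact ⟨hr', hp s hs1 r ⟨by linarith, by linarith⟩ hs2.2⟩
  exact (hsub (show t ∈ Ioi (-u0) by simp only [mem_Ioi]; linarith)).2

end Pool.Agent.KS6_93.Lin
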