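import Pool.Agent.KS6_93.Lin.P9

/-!
# On a closed surface there is no normalised geodesic
-/

set_option autoImplicit false
set_option maxSynthPendingDepth 3
set_option linter.unusedSectionVars false

namespace Pool.Agent.KS6_93.Lin

open Set Filter Topology MeasureTheory
open scoped ContDiff Manifold ENNReal
open Pool.Agent.Helper831

variable {E : Type*} [NormedAddCommGroup E] [NormedSpace ℝ E] [FiniteDimensional ℝ E]
  {M : Type*} [TopologicalSpace M] [ChartedSpace E M] [IsManifold 𝓘(ℝ, E) ∞ M]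
  {g : SemiRiemannianMetric E M} {η : OneForm E M} (L : E ≃L[ℝ] P)
  {e : OpenPartialHomeomorph M E} {u0 ε : ℝ} {γ : ℝ → ℝ → M}

lemma cv_fd (he : e ∈ atlas E M) {h s : ℝ} (hγ : g.IsGeodesic (γ h)) (hs : γ h s ∈ e.source)
    (hd : DifferentiableAt ℝ (fun z : P => L (e (γ z.1 z.2))) (h, s)) :
    cv L e (γ h) s = fderiv ℝ (fun z : P => L (e (γ z.1 z.2))) (h, s) (0, 1) := by
  have h1 : HasDerivAt (fun r => L (e (γ h r))) (cv L e (γ h) s) s :=
    cur_deriv g L he hγ hs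
  have h2 : HasDerivAt (fun r : ℝ => ((h, r) : P)) ((0, 1) : P) s :=
    (hasDerivAt_const s h).prodMk (hasDerivAt_id s)
  have h3 := HasFDerivAt.comp_hasDerivAt (l := fun z : P => L (e (γ z.1 z.2))) s
    hd.hasFDerivAt h2
  exact h1.unique h3

/-- the points of the family in the chart `e` of type `ε` -/
def Os (g : SemiRiemannianMetric E M) (L : E ≃L[ℝ] P) (e : OpenPartialHomeomorph M E) (ε : ℝ)
    (γ : ℝ → ℝ → M) (W : Set P) : Set P :=
  {z | z ∈ W ∧ γ z.1 z.2 ∈ e.source ∧ Typ ε (gL g L e (L (e (γ z.1 z.2)))) (cv L e (γ z.1) z.2)}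

lemma Os_open (hi : g.IsIndefinite) (he : e ∈ atlas E M) (hε : ε = 1 ∨ ε = -1) {a b : ℝ}
    (hγ : ∀ h ∈ Ioo a b, UG g η u0 (γ h))
    (hR : ∀ z ∈ Ioo a b ×ˢ Ioi (-u0), ∃ e ∈ atlas E M, Rg g L (fun z => γ z.1 z.2) e z) :
    IsOpen (Os g L e ε γ (Ioo a b ×ˢ Ioi (-u0))) := by
  rw [isOpen_iff_mem_nhds]
  rintro z ⟨z1, z2, z3⟩
  obtain ⟨e₁, he₁, hr⟩ := hR z z1
  obtain ⟨-, r2, r3, -⟩ := hr.change he₁ he z2
  have hW : IsOpen (Ioo a b ×ˢ Ioi (-u0)) := isOpen_Ioo.prod isOpen_Ioi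
  have hev : ∀ᶠ z' in 𝓝 z, z' ∈ Ioo a b ×ˢ Ioi (-u0) ∧ γ z'.1 z'.2 ∈ e.source ∧
      ContDiffAt ℝ 1 (fun z : P => L (e (γ z.1 z.2))) z' := by
    filter_upwards [hW.mem_nhds z1, r2.eventually_mem (e.open_source.mem_nhds z2),
      r3.eventually (by simp)] with z' a1 a2 a3
    exact ⟨a1, a2, a3⟩
  have hT : ∀ᶠ z' in 𝓝 z, Typ ε (gL g L e (L (e (γ z'.1 z'.2)))) (cv L e (γ z'.1) z'.2) := by
    have hU : L (e (γ z.1 z.2)) ∈ Ue L e := mem_Ue L z2
    have hpos : 0 < z.2 + u0 := by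
      have : -u0 < z.2 := z1.2
      linarith
    refine typ_ev (G := gL g L e) (c := fun z' : P => L (e (γ z'.1 z'.2)))
      (c' := fun z' : P => cv L e (γ z'.1) z'.2) (cont_gL L he hU)
      ((dat g η L hi he).lor _ hU) r3.continuousAt ?_ hε z3 ((hγ z.1 z1.1).ne L he z2 hpos) ?_
    · have hfc : ContinuousAt (fderiv ℝ (fun z : P => L (e (γ z.1 z.2)))) z := by
        have h1 : ContDiffAt ℝ 0 (fderiv ℝ (fun z : P => L (e (γ z.1 z.2)))) z :=
          r3.fderiv_right (by simp)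
        exact h1.continuousAt
      have h2 : Tendsto (fun z' => fderiv ℝ (fun z : P => L (e (γ z.1 z.2))) z' (0, 1)) (𝓝 z)
          (𝓝 (fderiv ℝ (fun z : P => L (e (γ z.1 z.2))) z (0, 1))) :=
        tendsto_clm hfc.tendsto tendsto_const_nhds
      rw [← cv_fd L he (hγ z.1 z1.1).geo z2 (r3.differentiableAt (by simp))] at h2
      refine h2.congr' ?_
      filter_upwards [hev] with z' hz'
      exact (cv_fd L he (hγ z'.1 hz'.1.1).geo hz'.2.1 (hz'.2.2.differentiableAt (by simp))).symm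
    · filter_upwards [hev] with z' hz'
      exact (hγ z'.1 hz'.1.1).typ L hi he hz'.2.1
  filter_upwards [hev, hT] with z' a1 a2
  exact ⟨a1.1, a1.2.1, a2⟩

/-- the part of the parameter domain which goes to a compact part of a chart has finite area -/
lemma vol_piece [T2Space M] (hi : g.IsIndefinite) (hcomp : IsNullComplete g) (haff : Aff g η)
    (he : e ∈ atlas E M) (hε : ε = 1 ∨ ε = -1) {a b : ℝ} (hu0 : 0 < u0)
    (hγ : ∀ h ∈ Ioo a b, UG g η u0 (γ h))
    (hinj : ∀ h ∈ Ioo a b, ∀ h' ∈ Ioo a b, γ h 0 = γ h' 0 → h = h')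
    (hR : ∀ z ∈ Ioo a b ×ˢ Ioi (-u0), ∃ e ∈ atlas E M, Rg g L (fun z => γ z.1 z.2) e z)
    {K : Set P} (hK : IsCompact K) (hKU : K ⊆ Ue L e) :
    volume (Os g L e ε γ (Ioo a b ×ˢ Ioi (-u0)) ∩
      (fun z : P => L (e (γ z.1 z.2))) ⁻¹' K) < ⊤ := by
  set F : P → P := fun z => L (e (γ z.1 z.2)) with hF
  set O := Os g L e ε γ (Ioo a b ×ˢ Ioi (-u0)) with hO
  have hOo : IsOpen O := Os_open L hi he hε hγ hR
  have hreg : ∀ z ∈ O, ContDiffAt ℝ 1 F z ∧ |(fderiv ℝ F z).det| * rd (gL g L e (F z)) = 1 := by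
    intro z hz
    obtain ⟨e₁, he₁, hr⟩ := hR z hz.1
    obtain ⟨-, -, r3, r4⟩ := hr.change he₁ he hz.2.1
    exact ⟨r3, r4.self_of_nhds⟩
  have hcont : ContinuousOn F O := fun z hz => (hreg z hz).1.continuousAt.continuousWithinAt
  have hmeas : MeasurableSet (O ∩ F ⁻¹' K) := by
    have h1 : O ∩ F ⁻¹' K = O \ (O ∩ F ⁻¹' Kᶜ) := by
      ext z
      simp only [mem_inter_iff, mem_preimage, Set.mem_sdiff, mem_compl_iff, not_and, not_not]
      constructor
      · rintro ⟨h1, h2⟩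
        exact ⟨h1, fun _ => h2⟩
      · rintro ⟨h1, h2⟩
        exact ⟨h1, h2 h1⟩
    rw [h1]
    exact hOo.measurableSet.diff
      (hcont.isOpen_inter_preimage hOo hK.isClosed.isOpen_compl).measurableSet
  have hε0 : ε ≠ 0 := by rcases hε with rfl | rfl <;> norm_num
  have hun : ∀ z ∈ O, Un ε (gL g L e) (ηL η L e) (AL g L e) (F z) (cv L e (γ z.1) z.2) := by
    intro z hz
    have hpos : 0 < z.2 + u0 := by
      have : -u0 < z.2 := hz.1.2
      linarith
    exact (hγ z.1 hz.1.1).un L he hz.2.1 hpos hz.2.2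
  have hinjF : InjOn F (O ∩ F ⁻¹' K) := by
    rintro z ⟨hz, -⟩ z' ⟨hz', -⟩ hzz
    have hU : F z ∈ Ue L e := mem_Ue L hz.2.1
    have hv : cv L e (γ z'.1) z'.2 = cv L e (γ z.1) z.2 := by
      have h1 := hun z' hz'
      rw [← hzz] at h1
      exact Un_unique (dat g η L hi he) hε0 hU (hun z hz) h1
    have ht : z.2 = z'.2 := by
      have h1 := (hγ z.1 hz.1.1).val L he hz.2.1
      have h2 := (hγ z'.1 hz'.1.1).val L he hz'.2.1
      rw [hv] at h2
      have h3 : L (e (γ z'.1 z'.2)) = L (e (γ z.1 z.2)) := hzz.symm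
      rw [h3, h1] at h2
      linarith
    have hp : γ z'.1 z.2 = γ z.1 z.2 := by
      have h1 : Ei L e (F z') = γ z'.1 z'.2 := Ei_Le L hz'.2.1
      have h2 : Ei L e (F z) = γ z.1 z.2 := Ei_Le L hz.2.1
      rw [← h2, hzz, h1, ht]
    have hpos : 0 < z.2 + u0 := by
      have : -u0 < z.2 := hz.1.2
      linarith
    have h0 := agree L hi hcomp haff he (hγ z.1 hz.1.1) (hγ z'.1 hz'.1.1) hz.2.1 hpos hp
      (by rw [ht]; rw [ht] at hv; exact hv) (s := 0) (by linarith)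
    exact Prod.ext (hinj _ hz.1.1 _ hz'.1.1 h0) ht
  have hder : ∀ z ∈ O ∩ F ⁻¹' K, HasFDerivWithinAt F (fderiv ℝ F z) (O ∩ F ⁻¹' K) z :=
    fun z hz => (((hreg z hz.1).1.differentiableAt (by simp)).hasFDerivAt).hasFDerivWithinAt
  have hint := lintegral_image_eq_lintegral_abs_det_fderiv_mul volume hmeas hder hinjF
    (fun y => ENNReal.ofReal (rd (gL g L e y)))
  have hone : ∫⁻ z in O ∩ F ⁻¹' K, ENNReal.ofReal |(fderiv ℝ F z).det| *
      ENNReal.ofReal (rd (gL g L e (F z))) = volume (O ∩ F ⁻¹' K) := by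
    rw [← setLIntegral_one]
    refine setLIntegral_congr_fun hmeas fun z hz => ?_
    rw [← ENNReal.ofReal_mul (abs_nonneg _), (hreg z hz.1).2, ENNReal.ofReal_one]
  rw [hone] at hint
  rw [← hint]
  have hsub : F '' (O ∩ F ⁻¹' K) ⊆ K := by
    rintro y ⟨z, hz, rfl⟩
    exact hz.2
  refine (lintegral_mono_set hsub).trans_lt ?_
  have hrc : ContinuousOn (fun y => rd (gL g L e y)) K :=
    (contDiffOn_rd (gL_smooth g L he) (dat g η L hi he).lor).continuousOn.mono hKU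
  obtain ⟨C, hC⟩ := hK.exists_bound_of_continuousOn hrc
  calc ∫⁻ y in K, ENNReal.ofReal (rd (gL g L e y)) ≤ ∫⁻ _ in K, ENNReal.ofReal C := by
        refine setLIntegral_mono' hK.measurableSet fun y hy => ?_
        exact ENNReal.ofReal_le_ofReal ((le_abs_self _).trans (hC y hy))
    _ = ENNReal.ofReal C * volume K := by rw [setLIntegral_const]
    _ < ⊤ := ENNReal.mul_lt_top ENNReal.ofReal_lt_top hK.measure_lt_top

/-- there is no normalised vector -/
theorem no_un [T2Space M] [CompactSpace M] (hi : g.IsIndefinite) (hcomp : IsNullComplete g)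
    (haff : Aff g η) (he : e ∈ atlas E M) (hε : ε = 1 ∨ ε = -1) {y0 v0 : P}
    (hy0 : y0 ∈ Ue L e) : ¬ Un ε (gL g L e) (ηL η L e) (AL g L e) y0 v0 := by
  intro hun
  have hε2 : ε ^ 2 = 1 := by rcases hε with rfl | rfl <;> norm_num
  obtain ⟨Θ, hs, hΘ⟩ := planar (dat g η L hi he) hε2 (geo_hyp L hi hcomp haff he hε) hy0 hun
  obtain ⟨a, ha, hbox⟩ := exists_box Θ.open_target (Θ.map_source hs)
  set k0 := (Θ y0).1 with hk0
  set u0 := (Θ y0).2 with hu0d
  have hu0 : 0 < u0 := by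
    rw [hu0d, (hΘ.vec _ hs _ hun).2]
    exact hun.2.2
  have hex : ∀ h : ℝ, ∃ γ : ℝ → M, h ∈ Ioo (k0 - a) (k0 + a) → UG g η u0 γ ∧ γ 0 ∈ e.source ∧
      L (e (γ 0)) = Θ.symm (h, u0) ∧ Typ ε (gL g L e (L (e (γ 0)))) (cv L e γ 0) := by
    intro h
    by_cases hh : h ∈ Ioo (k0 - a) (k0 + a)
    · have htar : (h, u0) ∈ Θ.target := hbox h u0 (by rw [abs_lt]; constructor <;>
        linarith [hh.1, hh.2]) (by rw [sub_self, abs_zero]; exact ha)
      have hsrc := Θ.map_target htar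
      obtain ⟨v, hv⟩ := hΘ.ex _ hsrc
      obtain ⟨γ, g1, g2, g3, g4⟩ := start_UG L hcomp haff he (hΘ.sub hsrc) hv
      have hval := (hΘ.vec _ hsrc _ hv).2
      rw [Θ.right_inv htar] at hval
      rw [← hval] at g1
      refine ⟨γ, fun _ => ⟨g1, g2, g3, ?_⟩⟩
      rw [g3, g4]
      exact hv.1
    · haveI : Nonempty M := ⟨Ei L e y0⟩
      exact ⟨fun _ => Classical.arbitrary M, fun h => absurd h hh⟩
  choose γ hγ using hex
  have hUG : ∀ h ∈ Ioo (k0 - a) (k0 + a), UG g η u0 (γ h) := fun h hh => (hγ h hh).1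
  have hinj : ∀ h ∈ Ioo (k0 - a) (k0 + a), ∀ h' ∈ Ioo (k0 - a) (k0 + a), γ h 0 = γ h' 0 →
      h = h' := by
    intro h hh h' hh' heq
    have h1 := (hγ h hh).2.2.1
    have h2 := (hγ h' hh').2.2.1
    rw [heq, h2] at h1
    have t1 : (h, u0) ∈ Θ.target := hbox h u0 (by rw [abs_lt]; constructor <;>
        linarith [hh.1, hh.2]) (by rw [sub_self, abs_zero]; exact ha)
    have t2 : (h', u0) ∈ Θ.target := hbox h' u0 (by rw [abs_lt]; constructor <;>
        linarith [hh'.1, hh'.2]) (by rw [sub_self, abs_zero]; exact ha)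
    have h3 := congrArg Θ h1
    rw [Θ.right_inv t1, Θ.right_inv t2] at h3
    exact (congrArg Prod.fst h3).symm
  set b := min a u0 with hb
  have hb0 : 0 < b := lt_min ha hu0
  have hboxb : ∀ h ∈ Ioo (k0 - a) (k0 + a), ∀ s ∈ Ioo (-b) b, (h, s + u0) ∈ Θ.target := by
    intro h hh s hs
    refine hbox h _ (by rw [abs_lt]; constructor <;> linarith [hh.1, hh.2]) ?_
    have : s + u0 - u0 = s := by ring
    rw [this, abs_lt]
    have := min_le_left a u0
    constructor <;> linarith [hs.1, hs.2]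
  have hbase : ∀ h0 ∈ Ioo (k0 - a) (k0 + a), ∃ e ∈ atlas E M,
      Rg g L (fun z => γ z.1 z.2) e (h0, 0) := by
    intro h0 hh0
    refine ⟨e, he, reg_of (u0 := u0) (a := -b) (b := b) (k := fun h => h) L he hΘ (dat g η L hi he).lor
      ⟨by linarith, hb0⟩ contDiffAt_id (Eventually.of_forall fun h => ?_) ?_⟩
    · rw [show (fun h : ℝ => h) = id from rfl, deriv_id, abs_one]
    · filter_upwards [Ioo_mem_nhds hh0.1 hh0.2] with h hh s hs
      obtain ⟨g1, g2, g3, g4⟩ := hγ h hh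
      have := stay L hi he hε hΘ g1 (show (0 : ℝ) ∈ Ioo (-b) b from ⟨by linarith, hb0⟩)
        (by have := min_le_right a u0; linarith) (hboxb h hh) g2
        (by rw [zero_add]; exact g3) g4 s hs
      exact ⟨hboxb h hh s hs, this.1, this.2.1⟩
  have hR : ∀ z ∈ Ioo (k0 - a) (k0 + a) ×ˢ Ioi (-u0), ∃ e ∈ atlas E M,
      Rg g L (fun z => γ z.1 z.2) e z := by
    rintro ⟨h, t⟩ ⟨h1, h2⟩
    have h2' : -u0 < t := h2
    exact reg_all L hi hcomp haff h1 hUG (t0 := 0) (by linarith) (hbase h h1) (by linarith)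
  -- the covering
  have hloc : ∀ x : M, ∃ K : Set P, IsCompact K ∧ K ⊆ Ue L (chartAt E x) ∧
      {x' : M | x' ∈ (chartAt E x).source ∧ L (chartAt E x x') ∈ K} ∈ 𝓝 x := by
    intro x
    have hx := mem_chart_source E x
    have hU : L (chartAt E x x) ∈ Ue L (chartAt E x) := by
      unfold Ue
      rw [mem_preimage, L.symm_apply_apply]
      exact (chartAt E x).map_source hx
    obtain ⟨r, hr, hball⟩ := Metric.nhds_basis_closedBall.mem_iff.1
      ((Ue_open L (chartAt E x)).mem_nhds hU)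
    refine ⟨Metric.closedBall (L (chartAt E x x)) r, isCompact_closedBall _ _, hball, ?_⟩
    have hc : ContinuousAt (fun x' => L (chartAt E x x')) x :=
      L.continuous.continuousAt.comp ((chartAt E x).continuousAt hx)
    filter_upwards [(chartAt E x).open_source.mem_nhds hx,
      hc.eventually_mem (Metric.closedBall_mem_nhds _ hr)] with x' h1 h2
    exact ⟨h1, h2⟩
  choose K hK1 hK2 hK3 using hloc
  obtain ⟨T, hT⟩ := isCompact_univ.elim_nhds_subcover
    (fun x => {x' : M | x' ∈ (chartAt E x).source ∧ L (chartAt E x x') ∈ K x})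
    (fun x _ => hK3 x)
  set W : Set P := Ioo (k0 - a) (k0 + a) ×ˢ Ioi (-u0) with hW
  set B : M → ℝ → Set P := fun x δ => Os g L (chartAt E x) δ γ W ∩
      (fun z : P => L (chartAt E x (γ z.1 z.2))) ⁻¹' K x with hB
  have hcov : W ⊆ ⋃ x ∈ T, (B x 1 ∪ B x (-1)) := by
    intro z hz
    have hmem : γ z.1 z.2 ∈ ⋃ x ∈ T, {x' : M | x' ∈ (chartAt E x).source ∧
      L (chartAt E x x') ∈ K x} := hT.2 (mem_univ _)
    obtain ⟨x, hxT, hx1, hx2⟩ := mem_iUnion₂.1 hmem
    refine mem_iUnion₂.2 ⟨x, hxT, ?_⟩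
    rcases (hUG z.1 hz.1).typ L hi (chart_mem_atlas E x) hx1 with h | h
    · exact Or.inl ⟨⟨hz, hx1, h⟩, hx2⟩
    · exact Or.inr ⟨⟨hz, hx1, h⟩, hx2⟩
  have hfin : volume (⋃ x ∈ T, (B x 1 ∪ B x (-1))) < ⊤ := by
    refine (measure_biUnion_finset_le _ _).trans_lt (ENNReal.sum_lt_top.2 fun x _ => ?_)
    refine (measure_union_le _ _).trans_lt (ENNReal.add_lt_top.2 ⟨?_, ?_⟩)
    · exact vol_piece L hi hcomp haff (chart_mem_atlas E x) (Or.inl rfl) hu0 hUG hinj hR
        (hK1 x) (hK2 x)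
    · exact vol_piece L hi hcomp haff (chart_mem_atlas E x) (Or.inr rfl) hu0 hUG hinj hR
        (hK1 x) (hK2 x)
  have hWt : volume W = ⊤ := by
    rw [hW, Measure.volume_eq_prod, Measure.prod_prod, Real.volume_Ioo, Real.volume_Ioi]
    rw [ENNReal.mul_top]
    have : 0 < k0 + a - (k0 - a) := by linarith
    exact (ENNReal.ofReal_pos.2 this).ne'
  have := (measure_mono hcov).trans_lt hfin
  rw [hWt] at this
  exact lt_irrefl _ this

end Pool.Agent.KS6_93.Lin
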