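import Pool.Agent.KS6_93.Lin.PA

/-!
# Closed Lorentz surfaces: affine functions along light-like geodesics are constant
-/

set_option autoImplicit false
set_option maxSynthPendingDepth 3
set_option linter.unusedSectionVars false

namespace Pool.Agent.KS6_93.Lin

open Set Filter Topology
open scoped ContDiff Manifold
open Pool.Agent.Helper831

variable {E : Type*} [NormedAddCommGroup E] [NormedSpace ℝ E] [FiniteDimensional ℝ E]
  {M : Type*} [TopologicalSpace M] [ChartedSpace E M] [IsManifold 𝓘(ℝ, E) ∞ M]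
  {g : SemiRiemannianMetric E M} {η : OneForm E M}

/-- the opposite form -/
noncomputable def negF (η : OneForm E M) : OneForm E M where
  form := fun x => -η.form x
  smooth := by
    intro e he u
    have := (η.smooth e he u).neg
    exact this

lemma slope_nonpos [T2Space M] [CompactSpace M] (L : E ≃L[ℝ] P) (hi : g.IsIndefinite)
    (hcomp : IsNullComplete g) (haff : Aff g η) {γ : ℝ → M} (hγ : g.IsLightlikeGeodesic γ)
    {C₁ C₂ : ℝ} (hC : ∀ t, η.form (γ t) (velocity E γ t) = C₁ * t + C₂) : ¬ 0 < C₁ := by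
  intro h0
  obtain ⟨hgeo, -, hnull⟩ := hγ
  set t0 : ℝ := (1 - C₂) / C₁ with ht0
  have he := chart_mem_atlas E (γ t0)
  have hs := mem_chart_source E (γ t0)
  set e := chartAt E (γ t0) with hedef
  have hU := mem_Ue (L := L) (e := e) (t := t0) (γ := γ) hs
  set y := L (e (γ t0)) with hy
  set w := cv L e γ t0 with hw
  have hval : ηL η L e y w = 1 := by
    rw [← eval_vel η L he (md hgeo t0) hs, hC t0, ht0]
    field_simp
    ring
  have hQ : Q (ηL η L e) (AL g L e) y w = C₁ := by
    have h1 := eval_deriv g η L he hgeo hs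
    have h2 : HasDerivAt (fun s => η.form (γ s) (velocity E γ s)) C₁ t0 := by
      have : (fun s => η.form (γ s) (velocity E γ s)) = fun s => C₁ * s + C₂ := funext hC
      rw [this]
      simpa using ((hasDerivAt_id t0).const_mul C₁).add_const C₂
    exact h1.unique h2
  have hD := dat g η L hi he
  have htyp : Typ 1 (gL g L e y) w ∨ Typ (-1) (gL g L e y) w := by
    refine null_typ (hD.lor _ hU) ?_
    rw [← form_vel g L he (md hgeo t0) hs]
    exact hnull t0
  have key : ∀ ε : ℝ, (ε = 1 ∨ ε = -1) → Typ ε (gL g L e y) w → False := by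
    intro ε hε hT
    refine no_un (g := g) (η := η) L hi hcomp haff he hε hU (v0 := (√C₁)⁻¹ • w)
      ⟨hT.smul _, ?_, ?_⟩
    · rw [Q_smul hD hU, hQ, inv_pow, Real.sq_sqrt h0.le, inv_mul_cancel₀ h0.ne']
    · rw [map_smul, smul_eq_mul, hval, mul_one]
      exact inv_pos.2 (Real.sqrt_pos.2 h0)
  rcases htyp with h | h
  · exact key 1 (Or.inl rfl) h
  · exact key (-1) (Or.inr rfl) h

theorem surface [T2Space M] [CompactSpace M] (hE : Module.finrank ℝ E = 2)
    (hi : g.IsIndefinite) (hcomp : IsNullComplete g) (haff : Aff g η) {γ : ℝ → M}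
    (hγ : g.IsLightlikeGeodesic γ) {C₁ C₂ : ℝ}
    (hC : ∀ t, η.form (γ t) (velocity E γ t) = C₁ * t + C₂) : C₁ = 0 := by
  have hP : Module.finrank ℝ E = Module.finrank ℝ P := by
    rw [hE]
    simp
  set L : E ≃L[ℝ] P := ContinuousLinearEquiv.ofFinrankEq hP
  have h1 := slope_nonpos L hi hcomp haff hγ hC
  have haff' : Aff g (negF η) := by
    intro γ hγ
    obtain ⟨C₁, C₂, h⟩ := haff γ hγ
    refine ⟨-C₁, -C₂, fun t => ?_⟩
    change -(η.form (γ t) (velocity E γ t)) = _
    rw [h t]
    ring
  have h2 := slope_nonpos L hi hcomp haff' hγ (C₁ := -C₁) (C₂ := -C₂) fun t => by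
    change -(η.form (γ t) (velocity E γ t)) = _
    rw [hC t]
    ring
  linarith

end Pool.Agent.KS6_93.Lin
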